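import Mathlib

/-!
# Disjoint pairs with sums in a common short interval
-/

set_option autoImplicit false

open Finset

namespace Pool.Agent.Q167.DT

/-- the pairs of `M` are pairwise disjoint -/
def Disj (M : Finset (ℕ × ℕ)) : Prop :=
  (∀ e ∈ M, e.1 ≠ e.2) ∧
    ∀ e ∈ M, ∀ f ∈ M, e ≠ f → e.1 ≠ f.1 ∧ e.1 ≠ f.2 ∧ e.2 ≠ f.1 ∧ e.2 ≠ f.2

/-- the elements of the pairs of `M` -/
def verts (M : Finset (ℕ × ℕ)) : Finset ℕ := M.image Prod.fst ∪ M.image Prod.snd

theorem mem_verts {M : Finset (ℕ × ℕ)} {v : ℕ} :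
    v ∈ verts M ↔ ∃ e ∈ M, e.1 = v ∨ e.2 = v := by
  unfold verts
  simp only [mem_union, mem_image]
  constructor
  · rintro (⟨e, he, h⟩ | ⟨e, he, h⟩)
    · exact ⟨e, he, Or.inl h⟩
    · exact ⟨e, he, Or.inr h⟩
  · rintro ⟨e, he, h | h⟩
    · exact Or.inl ⟨e, he, h⟩
    · exact Or.inr ⟨e, he, h⟩

theorem card_verts_le (M : Finset (ℕ × ℕ)) : (verts M).card ≤ 2 * M.card := by
  unfold verts
  have h1 := card_union_le (M.image Prod.fst) (M.image Prod.snd)
  have h2 := card_image_le (s := M) (f := Prod.fst)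
  have h3 := card_image_le (s := M) (f := Prod.snd)
  omega

theorem disj_insert {M : Finset (ℕ × ℕ)} {e : ℕ × ℕ} (hM : Disj M) (he : e.1 ≠ e.2)
    (h1 : e.1 ∉ verts M) (h2 : e.2 ∉ verts M) : Disj (insert e M) := by
  have key : ∀ f ∈ M, e.1 ≠ f.1 ∧ e.1 ≠ f.2 ∧ e.2 ≠ f.1 ∧ e.2 ≠ f.2 := by
    intro f hf
    refine ⟨fun h => h1 ?_, fun h => h1 ?_, fun h => h2 ?_, fun h => h2 ?_⟩
    · exact mem_verts.2 ⟨f, hf, Or.inl h.symm⟩
    · exact mem_verts.2 ⟨f, hf, Or.inr h.symm⟩
    · exact mem_verts.2 ⟨f, hf, Or.inl h.symm⟩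
    · exact mem_verts.2 ⟨f, hf, Or.inr h.symm⟩
  constructor
  · intro f hf
    rcases mem_insert.1 hf with rfl | hf
    · exact he
    · exact hM.1 f hf
  · intro f hf f' hf' hne
    rcases mem_insert.1 hf with h | hf
    · rcases mem_insert.1 hf' with h' | hf'
      · exact absurd (h.trans h'.symm) hne
      · rw [h]; exact key f' hf'
    · rcases mem_insert.1 hf' with h' | hf'
      · rw [h']
        obtain ⟨a, b, c, d⟩ := key f hf
        exact ⟨a.symm, c.symm, b.symm, d.symm⟩
      · exact hM.2 f hf f' hf' hne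

theorem greedy (E : Finset (ℕ × ℕ)) (D : ℕ) (hl : ∀ e ∈ E, e.1 ≠ e.2)
    (hD : ∀ v, (E.filter (fun e => e.1 = v ∨ e.2 = v)).card ≤ D) :
    ∀ k : ℕ, 2 * k * D < E.card → ∃ M : Finset (ℕ × ℕ), M ⊆ E ∧ M.card = k ∧ Disj M := by
  classical
  intro k
  induction k with
  | zero => intro _; exact ⟨∅, empty_subset _, rfl, by simp [Disj]⟩
  | succ k ih =>
    intro h
    have h' : 2 * k * D < E.card := by nlinarith
    obtain ⟨M, hME, hMc, hM⟩ := ih h'
    have hcard : ((verts M).biUnion (fun v => E.filter (fun e => e.1 = v ∨ e.2 = v))).card <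
        E.card := by
      calc _ ≤ ∑ v ∈ verts M, (E.filter (fun e => e.1 = v ∨ e.2 = v)).card := card_biUnion_le
        _ ≤ ∑ v ∈ verts M, D := sum_le_sum fun v _ => hD v
        _ = (verts M).card * D := by rw [sum_const, smul_eq_mul]
        _ ≤ 2 * k * D := by
            have := card_verts_le M
            rw [hMc] at this
            exact Nat.mul_le_mul_right _ this
        _ < E.card := h'
    obtain ⟨e, heE, he⟩ := exists_mem_notMem_of_card_lt_card hcard
    have he1 : e.1 ∉ verts M := by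
      intro h1
      exact he (mem_biUnion.2 ⟨e.1, h1, mem_filter.2 ⟨heE, Or.inl rfl⟩⟩)
    have he2 : e.2 ∉ verts M := by
      intro h1
      exact he (mem_biUnion.2 ⟨e.2, h1, mem_filter.2 ⟨heE, Or.inr rfl⟩⟩)
    have heM : e ∉ M := fun h1 => he1 (mem_verts.2 ⟨e, h1, Or.inl rfl⟩)
    refine ⟨insert e M, insert_subset heE hME, ?_, disj_insert hM (hl e heE) he1 he2⟩
    rw [card_insert_of_notMem heM, hMc]

theorem pairs_of_card : ∀ (K : ℕ) (T : Finset ℕ), 2 * K ≤ T.card →
    ∃ M : Finset (ℕ × ℕ), M.card = K ∧ Disj M ∧ verts M ⊆ T := by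
  classical
  intro K
  induction K with
  | zero => intro T _; exact ⟨∅, rfl, by simp [Disj], by simp [verts]⟩
  | succ K ih =>
    intro T hT
    obtain ⟨a, ha, b, hb, hab⟩ := one_lt_card.1 (show 1 < T.card by omega)
    have hc : 2 * K ≤ ((T.erase a).erase b).card := by
      rw [card_erase_of_mem (mem_erase.2 ⟨hab.symm, hb⟩), card_erase_of_mem ha]
      omega
    obtain ⟨M, hMc, hM, hMT⟩ := ih _ hc
    have ha' : a ∉ verts M := fun h => by
      have := hMT h
      simp at this
    have hb' : b ∉ verts M := fun h => by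
      have := hMT h
      simp at this
    have heM : (a, b) ∉ M := fun h1 => ha' (mem_verts.2 ⟨(a, b), h1, Or.inl rfl⟩)
    refine ⟨insert (a, b) M, ?_, disj_insert hM hab ha' hb', ?_⟩
    · rw [card_insert_of_notMem heM, hMc]
    · intro v hv
      obtain ⟨e, he, h⟩ := mem_verts.1 hv
      rcases mem_insert.1 he with rfl | he
      · rcases h with rfl | rfl
        · exact ha
        · exact hb
      · have := hMT (mem_verts.2 ⟨e, he, h⟩)
        exact mem_of_mem_erase (mem_of_mem_erase this)

/-- `K` pairwise disjoint pairs of elements of `F` with sums in an interval of length `2 U` -/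
def Fam (K U : ℕ) (F : Finset ℕ) (M : Finset (ℕ × ℕ)) : Prop :=
  M.card = K ∧ Disj M ∧ verts M ⊆ F ∧ ∃ n, ∀ e ∈ M, n ≤ e.1 + e.2 ∧ e.1 + e.2 ≤ n + 2 * U

theorem Fam.mono {K V : ℕ} {F F' : Finset ℕ} {M : Finset (ℕ × ℕ)} (h : Fam K V F M)
    (hF : F ⊆ F') : Fam K V F' M := ⟨h.1, h.2.1, h.2.2.1.trans hF, h.2.2.2⟩

theorem exists_family (F : Finset ℕ) (X U K : ℕ) (hX : ∀ a ∈ F, a ≤ X)
    (hc : F.card + (2 * X / (U + 1) + 1) * (16 * K ^ 2) < F.card ^ 2) :
    ∃ M : Finset (ℕ × ℕ), Fam K U F M := by
  classical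
  obtain ⟨V, hVU⟩ : ∃ V, V = U + 1 := ⟨_, rfl⟩
  rw [← hVU] at hc
  have hV : 1 ≤ V := by omega
  by_cases hW : ∃ i, 2 * K ≤ (F.filter (fun a => a / V = i)).card
  · obtain ⟨i, hi⟩ := hW
    obtain ⟨M, hMc, hM, hMT⟩ := pairs_of_card K _ hi
    refine ⟨M, hMc, hM, hMT.trans (filter_subset _ _), 2 * (i * V), ?_⟩
    intro e he
    have h1 := (mem_filter.1 (hMT (mem_verts.2 ⟨e, he, Or.inl rfl⟩))).2
    have h2 := (mem_filter.1 (hMT (mem_verts.2 ⟨e, he, Or.inr rfl⟩))).2
    have h3 := Nat.div_add_mod e.1 V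
    have h4 := Nat.div_add_mod e.2 V
    have h5 := Nat.mod_lt e.1 (show 0 < V by omega)
    have h6 := Nat.mod_lt e.2 (show 0 < V by omega)
    rw [h1] at h3
    rw [h2] at h4
    have h7 : V * i = i * V := mul_comm _ _
    constructor <;> omega
  · push Not at hW
    set E : ℕ → Finset (ℕ × ℕ) := fun j => F.offDiag.filter (fun e => (e.1 + e.2) / V = j) with hE
    have hsum : ∑ j ∈ range (2 * X / V + 1), (E j).card = F.card ^ 2 - F.card := by
      rw [← card_eq_sum_card_fiberwise (f := fun e : ℕ × ℕ => (e.1 + e.2) / V)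
        (s := F.offDiag) (t := range (2 * X / V + 1)), offDiag_card, sq]
      intro e he
      have he' : e ∈ F.offDiag := he
      rw [mem_offDiag] at he'
      have h1 := hX _ he'.1
      have h2 := hX _ he'.2.1
      show (e.1 + e.2) / V ∈ (range (2 * X / V + 1) : Set ℕ)
      rw [mem_coe, mem_range]
      have : (e.1 + e.2) / V ≤ 2 * X / V := Nat.div_le_div_right (by omega)
      omega
    have hj : ∃ j ∈ range (2 * X / V + 1), 16 * K ^ 2 < (E j).card := by
      by_contra hcon
      push Not at hcon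
      have := sum_le_sum hcon
      rw [hsum, sum_const, card_range, smul_eq_mul] at this
      omega
    obtain ⟨j, -, hj⟩ := hj
    have hnb : ∀ v, (F.filter (fun b => (v + b) / V = j)).card ≤ 4 * K := by
      intro v
      have hsub : F.filter (fun b => (v + b) / V = j) ⊆
          F.filter (fun b => b / V = j - v / V) ∪ F.filter (fun b => b / V = j - v / V - 1) := by
        intro b hb
        rw [mem_filter] at hb
        rw [mem_union, mem_filter, mem_filter]
        have h3 := Nat.div_add_mod v V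
        have h4 := Nat.div_add_mod b V
        have h5 := Nat.mod_lt v (show 0 < V by omega)
        have h6 := Nat.mod_lt b (show 0 < V by omega)
        have h7 : (v + b) / V = v / V + b / V ∨ (v + b) / V = v / V + b / V + 1 := by
          rw [Nat.add_div (by omega)]
          split_ifs
          · right; rfl
          · left; rfl
        have h8 := hb.2
        have key : ∀ q r z : ℕ, z = j → (z = q + r → r = j - q) ∧
            (z = q + r + 1 → r = j - q - 1) := by
          intro q r z hz
          constructor <;> intro h <;> omega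
        rcases h7 with h7 | h7
        · left; exact ⟨hb.1, (key _ _ _ h8).1 h7⟩
        · right; exact ⟨hb.1, (key _ _ _ h8).2 h7⟩
      have h1 := card_le_card hsub
      have h2 := card_union_le (F.filter (fun b => b / V = j - v / V))
        (F.filter (fun b => b / V = j - v / V - 1))
      have h3 := hW (j - v / V)
      have h4 := hW (j - v / V - 1)
      omega
    have hD : ∀ v, ((E j).filter (fun e => e.1 = v ∨ e.2 = v)).card ≤ 8 * K := by
      intro v
      have hsub : (E j).filter (fun e => e.1 = v ∨ e.2 = v) ⊆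
          (F.filter (fun b => (v + b) / V = j)).image (fun b => (v, b)) ∪
          (F.filter (fun b => (v + b) / V = j)).image (fun b => (b, v)) := by
        intro e he
        rw [mem_filter, hE, mem_filter, mem_offDiag] at he
        obtain ⟨⟨⟨h1, h2, h3⟩, h4⟩, h5⟩ := he
        rw [mem_union, mem_image, mem_image]
        rcases h5 with h5 | h5
        · left
          refine ⟨e.2, mem_filter.2 ⟨h2, ?_⟩, ?_⟩
          · rw [← h5]; exact h4
          · rw [← h5]
        · right
          refine ⟨e.1, mem_filter.2 ⟨h1, ?_⟩, ?_⟩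
          · rw [← h5, add_comm]; exact h4
          · rw [← h5]
      have h1 := card_le_card hsub
      have h2 := card_union_le ((F.filter (fun b => (v + b) / V = j)).image (fun b => (v, b)))
        ((F.filter (fun b => (v + b) / V = j)).image (fun b => (b, v)))
      have h3 := card_image_le (s := F.filter (fun b => (v + b) / V = j)) (f := fun b => (v, b))
      have h4 := card_image_le (s := F.filter (fun b => (v + b) / V = j)) (f := fun b => (b, v))
      have h5 := hnb v
      omega
    obtain ⟨M, hME, hMc, hM⟩ := greedy (E j) (8 * K)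
      (fun e he => by
        rw [hE, mem_filter, mem_offDiag] at he
        exact he.1.2.2) hD K (by nlinarith)
    refine ⟨M, hMc, hM, ?_, j * V, ?_⟩
    · intro v hv
      obtain ⟨e, he, h⟩ := mem_verts.1 hv
      have h1 := hME he
      rw [hE, mem_filter, mem_offDiag] at h1
      rcases h with rfl | rfl
      · exact h1.1.1
      · exact h1.1.2.1
    · intro e he
      have h1 := hME he
      rw [hE, mem_filter, mem_offDiag] at h1
      have h3 := Nat.div_add_mod (e.1 + e.2) V
      have h5 := Nat.mod_lt (e.1 + e.2) (show 0 < V by omega)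
      rw [h1.2] at h3
      have h7 : V * j = j * V := mul_comm _ _
      constructor <;> omega

theorem many_families (X U K t : ℕ)
    (ht : t + (2 * X / (U + 1) + 1) * (16 * K ^ 2) < t ^ 2) :
    ∀ (m : ℕ) (F : Finset ℕ), (∀ a ∈ F, a ≤ X) → t + 2 * K * m ≤ F.card →
      ∃ 𝓜 : Fin m → Finset (ℕ × ℕ), (∀ i, Fam K U F (𝓜 i)) ∧
        ∀ i j, i ≠ j → Disjoint (verts (𝓜 i)) (verts (𝓜 j)) := by
  classical
  intro m
  induction m with
  | zero => intro F _ _; exact ⟨fun i => i.elim0, fun i => i.elim0, fun i => i.elim0⟩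
  | succ m ih =>
    intro F hF hc
    have hmul : 2 * K * (m + 1) = 2 * K * m + 2 * K := by ring
    rw [hmul] at hc
    have h1 : F.card + (2 * X / (U + 1) + 1) * (16 * K ^ 2) < F.card ^ 2 := by
      obtain ⟨d, hd⟩ := Nat.exists_eq_add_of_le (show t ≤ F.card by omega)
      rw [hd]
      have ht1 : 1 ≤ t := by
        rcases Nat.eq_zero_or_pos t with rfl | h
        · simp at ht
        · exact h
      nlinarith
    obtain ⟨M₀, hM₀⟩ := exists_family F X U K hF h1
    have hcv : (verts M₀).card ≤ 2 * K := by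
      have := card_verts_le M₀
      rw [hM₀.1] at this
      exact this
    have h2 : t + 2 * K * m ≤ (F \ verts M₀).card := by
      have := le_card_sdiff (verts M₀) F
      omega
    obtain ⟨𝓜, h𝓜, hdis⟩ := ih (F \ verts M₀)
      (fun a ha => hF a (mem_sdiff.1 ha).1) h2
    refine ⟨Fin.cons M₀ 𝓜, ?_, ?_⟩
    · intro i
      refine Fin.cases ?_ (fun i => ?_) i
      · exact hM₀
      · exact (h𝓜 i).mono sdiff_subset
    · have hd0 : ∀ i, Disjoint (verts M₀) (verts (𝓜 i)) := by
        intro i
        refine disjoint_of_subset_right (h𝓜 i).2.2.1 ?_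
        exact disjoint_sdiff
      intro i j
      refine Fin.cases ?_ (fun i => ?_) i <;> refine Fin.cases ?_ (fun j => ?_) j
      · intro h; exact absurd rfl h
      · intro _; exact hd0 j
      · intro _; exact (hd0 i).symm
      · intro h
        exact hdis i j (fun h' => h (by rw [h']))

end Pool.Agent.Q167.DT
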