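import Pool.Agent.Q167.DT.Step

/-!
# The displacement threshold: the almost sure statement
-/

set_option autoImplicit false

open Finset MeasureTheory ProbabilityTheory Filter Topology

namespace Pool.Agent.Q167.DT

theorem slow_pow {w : ℕ → ℕ} (hslow : ∀ B : ℕ, ∀ᶠ n : ℕ in atTop, w n ^ B ≤ n) (B D : ℕ) :
    ∀ᶠ n : ℕ in atTop, D * w n ^ B ≤ n := by
  filter_upwards [hslow (2 * B), eventually_ge_atTop (D ^ 2)] with n h1 h2
  have h3 : (D * w n ^ B) ^ 2 ≤ n ^ 2 := by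
    rw [mul_pow, ← pow_mul, mul_comm B 2, sq n]
    exact Nat.mul_le_mul h2 h1
  exact (Nat.pow_le_pow_iff_left (by norm_num)).1 h3

variable {Ω : Type*} [MeasurableSpace Ω] {μ : Measure Ω} [IsProbabilityMeasure μ]

theorem unbounded_ae {P ℓ w : ℕ → ℕ} (hP : StrictMono P) (h0 : P 0 = 0)
    (hlen : ∀ s, P (s + 1) ≤ P s + ℓ (P s)) (hℓm : Monotone ℓ) (hwm : Monotone w)
    (hℓ1 : ∀ n, 1 ≤ ℓ n) (hℓw : ∀ n, ℓ n ≤ w n)
    (hreg : ∃ C : ℝ, C < 2 ∧ ∀ᶠ x : ℕ in atTop, (w (2 * x) : ℝ) ≤ C * w x)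
    (hslow : ∀ B : ℕ, ∀ᶠ n : ℕ in atTop, w n ^ B ≤ n)
    {g : ℕ → ℝ} (hg : ∀ n, 0 < g n)
    (hlim : Tendsto (fun n => g n ^ 2 * ℓ n / w n) atTop (𝓝 0))
    {A : Set ℕ} (hA : ∃ C : ℝ, 0 < C ∧ ∃ᶠ n : ℕ in atTop,
      Real.sqrt n / g n ≤ C * ((A ∩ Set.Icc 1 n).ncard : ℝ))
    {ε : ℕ → Ω → ℕ} (hi : iIndepFun ε μ) (hm : ∀ s, Measurable (ε s)) {β : ℝ} (hβ0 : 0 < β)
    (hε : ∀ s j, j ≤ w (P s) → β / (w (P s) + 1) ≤ μ.real {ω | ε s ω = j}) :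
    ∀ᵐ ω ∂μ, ∀ K, ∃ v, K ≤ rep (moved A P (fun s => ε s ω)) v := by
  rw [ae_all_iff]
  intro K
  rcases Nat.eq_zero_or_pos K with rfl | hK
  · exact Eventually.of_forall fun ω => ⟨0, Nat.zero_le _⟩
  obtain ⟨C, hC2, hreg⟩ := hreg
  obtain ⟨x₀, hx₀⟩ := eventually_atTop.1 hreg
  obtain ⟨C₀, hC₀, hA⟩ := hA
  -- a constant `≥ 1`
  set C' : ℝ := max C 1 with hC'
  have hC1 : 1 ≤ C' := le_max_right _ _
  have hC2' : C' < 2 := max_lt hC2 (by norm_num)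
  have hreg' : ∀ x, x₀ ≤ x → (w (2 * x) : ℝ) ≤ C' * w x := fun x hx =>
    (hx₀ x hx).trans (mul_le_mul_of_nonneg_right (le_max_left _ _) (by positivity))
  set ρ : ℝ := Real.sqrt (C' / 2) with hρ
  have hρ2 : ρ ^ 2 = C' / 2 := Real.sq_sqrt (by positivity)
  have hρ0 : 0 < ρ := Real.sqrt_pos.2 (by positivity)
  have hρ1 : ρ < 1 := by
    rw [hρ, Real.sqrt_lt' (by norm_num)]
    linarith
  have hρ1' : 0 < 1 - ρ := by linarith
  have hβ1 : min β 1 ≤ 1 := min_le_right _ _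
  have hβ0' : 0 < min β 1 := lt_min hβ0 one_pos
  have hε' : ∀ s j, j ≤ w (P s) → min β 1 / (w (P s) + 1) ≤ μ.real {ω | ε s ω = j} := by
    intro s j hj
    refine le_trans ?_ (hε s j hj)
    exact div_le_div_of_nonneg_right (min_le_left _ _) (by positivity)
  set c : ℝ := 1 / C₀ with hc
  have hc0 : 0 < c := by positivity
  set Θ : ℝ := 81920 * (K : ℝ) ^ 3 / ((1 - ρ) ^ 2 * c ^ 2) with hΘ
  have hΘ0 : 0 < Θ := by
    have : (1 : ℝ) ≤ K := by exact_mod_cast hK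
    positivity
  have hlimΘ : ∀ᶠ n : ℕ in atTop, Θ * (g n ^ 2 * ℓ n) ≤ w n := by
    have h1 := hlim.eventually (gt_mem_nhds (show (0 : ℝ) < 1 / Θ by positivity))
    filter_upwards [h1] with n hn
    have hw1 : (1 : ℝ) ≤ w n := by exact_mod_cast (hℓ1 n).trans (hℓw n)
    rw [div_lt_div_iff₀ (by linarith) hΘ0] at hn
    linarith
  have key : ∀ L : ℝ, μ.real {ω | ¬ ∃ v, K ≤ rep (moved A P (fun s => ε s ω)) v} ≤
      Real.exp (-L) := by
    intro L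
    obtain ⟨D₁, hD₁⟩ := exists_nat_ge (max (16 * K * 4 ^ K * L / (min β 1) ^ (2 * K)) (16 * K))
    obtain ⟨D₂, hD₂⟩ := exists_nat_ge (max (4 / (c ^ 2 * Θ))
      (max ((2 * D₁ ^ 2 : ℕ) : ℝ) ((2 * x₀ + 2 : ℕ) : ℝ)))
    obtain ⟨n, hAn, hn1, hn2⟩ := (hA.and_eventually (hlimΘ.and
      (slow_pow hslow (3 * (4 * K + 1)) (8 * D₂ ^ 3)))).exists
    refine step (L := L) hP h0 hlen hℓm hwm hℓ1 hℓw hC1 hC2' hρ0 hρ1 hρ2 hreg' hi hm hβ0' hβ1
      hε' hK hc0 (n := n) (hg n) ?_ (le_refl Θ) (D₁ := D₁) (D₂ := D₂)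
      ((le_max_left _ _).trans hD₁) ?_ ?_ ?_ ((le_max_left _ _).trans hD₂) hn1 ?_
    · rw [div_le_iff₀ (hg n), card_seg] at hAn
      rw [hc, one_div, inv_mul_le_iff₀ hC₀]
      linarith
    · have := (le_max_right _ _).trans hD₁
      exact_mod_cast this
    · have := ((le_max_left _ _).trans (le_max_right _ _)).trans hD₂
      exact_mod_cast this
    · have := ((le_max_right _ _).trans (le_max_right _ _)).trans hD₂
      exact_mod_cast this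
    · refine le_trans (le_of_eq ?_) hn2
      rw [mul_pow, ← pow_mul]
      ring
  have hzero : μ.real {ω | ¬ ∃ v, K ≤ rep (moved A P (fun s => ε s ω)) v} = 0 := by
    refine le_antisymm ?_ measureReal_nonneg
    refine le_of_forall_pos_le_add ?_
    intro δ hδ
    rw [zero_add]
    have := key (-Real.log δ)
    rwa [neg_neg, Real.exp_log hδ] at this
  rw [measureReal_eq_zero_iff] at hzero
  exact hzero

end Pool.Agent.Q167.DT
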