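import Pool.Agent.Q167.DT.Comb

/-!
# Independent displacements of pieces: many chances
-/

set_option autoImplicit false

open Finset MeasureTheory ProbabilityTheory

namespace Pool.Agent.Q167.DT

/-- The number of ordered pairs of elements of `A` with sum `n`. -/
noncomputable def rep (A : Set ℕ) (n : ℕ) : ℕ :=
  {p : ℕ × ℕ | p.1 ∈ A ∧ p.2 ∈ A ∧ p.1 + p.2 = n}.ncard

/-- The elements `a` of `A` with `N s ≤ a < N (s + 1)` are moved to `a + x s`, for all `s`. -/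
def moved (A : Set ℕ) (N x : ℕ → ℕ) : Set ℕ :=
  {v | ∃ s, ∃ a ∈ A, N s ≤ a ∧ a < N (s + 1) ∧ v = a + x s}

/-- the index of the piece of `a` -/
def idx (N : ℕ → ℕ) (a : ℕ) : ℕ := Nat.findGreatest (fun s => N s ≤ a) a

theorem idx_le {N : ℕ → ℕ} (h0 : N 0 = 0) (a : ℕ) : N (idx N a) ≤ a := by
  unfold idx
  exact Nat.findGreatest_spec (P := fun s => N s ≤ a) (Nat.zero_le a) (by rw [h0]; exact Nat.zero_le a)

theorem lt_idx {N : ℕ → ℕ} (hN : StrictMono N) (a : ℕ) : a < N (idx N a + 1) := by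
  by_contra h
  push Not at h
  have h1 : idx N a + 1 ≤ a := (hN.id_le _).trans h
  have h2 : idx N a + 1 ≤ idx N a := by
    conv_rhs => unfold idx
    exact Nat.le_findGreatest h1 h
  omega

theorem idx_eq {N : ℕ → ℕ} (hN : StrictMono N) (h0 : N 0 = 0) {a s : ℕ} (h1 : N s ≤ a)
    (h2 : a < N (s + 1)) : idx N a = s := by
  have h3 := idx_le h0 a
  have h4 := lt_idx hN a
  rcases lt_trichotomy (idx N a) s with h | h | h
  · have : N (idx N a + 1) ≤ N s := hN.monotone (by omega)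
    omega
  · exact h
  · have : N (s + 1) ≤ N (idx N a) := hN.monotone (by omega)
    omega

theorem mem_moved {A : Set ℕ} {N x : ℕ → ℕ} (hN : StrictMono N) (h0 : N 0 = 0) {a : ℕ}
    (ha : a ∈ A) : a + x (idx N a) ∈ moved A N x :=
  ⟨idx N a, a, ha, idx_le h0 a, lt_idx hN a, rfl⟩

theorem rep_finite (B : Set ℕ) (n : ℕ) :
    {p : ℕ × ℕ | p.1 ∈ B ∧ p.2 ∈ B ∧ p.1 + p.2 = n}.Finite := by
  refine Set.Finite.subset (Finset.finite_toSet (range (n + 1) ×ˢ range (n + 1))) ?_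
  rintro p ⟨-, -, h⟩
  rw [Finset.mem_coe, Finset.mem_product, mem_range, mem_range]
  omega

theorem le_rep {B : Set ℕ} {n : ℕ} (T : Finset ℕ)
    (h : ∀ a ∈ T, a ∈ B ∧ a ≤ n ∧ n - a ∈ B) : T.card ≤ rep B n := by
  classical
  unfold rep
  have h1 : (T.image (fun a => (a, n - a))).card = T.card :=
    card_image_of_injective _ (fun a b hab => (Prod.ext_iff.1 hab).1)
  rw [← h1, ← Set.ncard_coe_finset]
  refine Set.ncard_le_ncard ?_ (rep_finite B n)
  intro p hp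
  rw [mem_coe, mem_image] at hp
  obtain ⟨a, ha, rfl⟩ := hp
  obtain ⟨h2, h3, h4⟩ := h a ha
  exact ⟨h2, h4, by show a + (n - a) = n; omega⟩

/-- a family of pairs gives representations if the displacements have certain values -/
theorem exists_target {A : Set ℕ} {N : ℕ → ℕ} (hN : StrictMono N) (h0 : N 0 = 0)
    {F : Finset ℕ} (hFA : ∀ a ∈ F, a ∈ A) (hinj : Set.InjOn (idx N) F) {K V : ℕ}
    {M : Finset (ℕ × ℕ)} (hM : Fam K V F M) :
    ∃ τ : ℕ → ℕ, (∀ s, τ s ≤ 2 * V) ∧ ∀ x : ℕ → ℕ,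
      (∀ s ∈ (verts M).image (idx N), x s = τ s) → ∃ n, K ≤ rep (moved A N x) n := by
  classical
  obtain ⟨hc, hd, hv, n, hn⟩ := hM
  set n' := n + 2 * V with hn'
  have hvF : ∀ e ∈ M, e.1 ∈ F ∧ e.2 ∈ F := fun e he =>
    ⟨hv (mem_verts.2 ⟨e, he, Or.inl rfl⟩), hv (mem_verts.2 ⟨e, he, Or.inr rfl⟩)⟩
  refine ⟨fun s => if h : ∃ e ∈ M, idx N e.2 = s then
    n' - h.choose.1 - h.choose.2 else 0, ?_, ?_⟩
  · intro s
    by_cases h : ∃ e ∈ M, idx N e.2 = s
    · simp only [dif_pos h]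
      have := hn _ h.choose_spec.1
      omega
    · simp only [dif_neg h]
      omega
  · intro x hx
    have hx1 : ∀ e ∈ M, x (idx N e.1) = 0 := by
      intro e he
      rw [hx _ (mem_image.2 ⟨e.1, mem_verts.2 ⟨e, he, Or.inl rfl⟩, rfl⟩)]
      have : ¬ ∃ f ∈ M, idx N f.2 = idx N e.1 := by
        rintro ⟨f, hf, h⟩
        have h1 := hinj (hvF f hf).2 (hvF e he).1 h
        by_cases hef : e = f
        · subst hef
          exact hd.1 e he h1.symm
        · exact (hd.2 e he f hf hef).2.1 h1.symm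
      simp only [dif_neg this]
    have hx2 : ∀ e ∈ M, x (idx N e.2) = n' - e.1 - e.2 := by
      intro e he
      rw [hx _ (mem_image.2 ⟨e.2, mem_verts.2 ⟨e, he, Or.inr rfl⟩, rfl⟩)]
      have h : ∃ f ∈ M, idx N f.2 = idx N e.2 := ⟨e, he, rfl⟩
      simp only [dif_pos h]
      have h1 := h.choose_spec
      have h2 := hinj (hvF _ h1.1).2 (hvF e he).2 h1.2
      have h3 : h.choose = e := by
        by_contra hne
        exact (hd.2 _ h1.1 e he hne).2.2.2 h2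
      rw [h3]
    refine ⟨n', ?_⟩
    have hcard : (M.image Prod.fst).card = K := by
      rw [card_image_of_injOn, hc]
      intro e he f hf h
      by_contra hne
      exact (hd.2 e he f hf hne).1 h
    rw [← hcard]
    refine le_rep _ ?_
    intro a ha
    obtain ⟨e, he, rfl⟩ := mem_image.1 ha
    have h1 := mem_moved (x := x) hN h0 (hFA _ (hvF e he).1)
    have h2 := mem_moved (x := x) hN h0 (hFA _ (hvF e he).2)
    rw [hx1 e he, add_zero] at h1
    rw [hx2 e he] at h2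
    have h3 := hn e he
    refine ⟨h1, by omega, ?_⟩
    have h4 : n' - e.1 = e.2 + (n' - e.1 - e.2) := by omega
    rw [h4]
    exact h2

section

variable {Ω : Type*} [MeasurableSpace Ω] {μ : Measure Ω} [IsProbabilityMeasure μ]

theorem prob_pattern {ε : ℕ → Ω → ℕ} (hi : iIndepFun ε μ) (S : Finset ℕ) (τ : ℕ → ℕ) (q : ℝ)
    (hq0 : 0 ≤ q) (hq : ∀ s ∈ S, q ≤ μ.real {ω | ε s ω = τ s}) :
    q ^ S.card ≤ μ.real {ω | ∀ s ∈ S, ε s ω = τ s} := by
  have h1 := hi.measure_inter_preimage_eq_mul S (sets := fun s => {τ s})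
    (fun s _ => measurableSet_singleton _)
  have h2 : (⋂ s ∈ S, ε s ⁻¹' {τ s}) = {ω | ∀ s ∈ S, ε s ω = τ s} := by
    ext ω
    simp
  rw [h2] at h1
  have h3 : μ.real {ω | ∀ s ∈ S, ε s ω = τ s} = ∏ s ∈ S, μ.real {ω | ε s ω = τ s} := by
    unfold Measure.real
    rw [h1, ENNReal.toReal_prod]
    rfl
  rw [h3, ← prod_const]
  exact Finset.prod_le_prod (fun _ _ => hq0) hq

theorem prob_none {ε : ℕ → Ω → ℕ} (hi : iIndepFun ε μ) (hm : ∀ s, Measurable (ε s)) {m : ℕ}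
    (S : Fin m → Finset ℕ) (hS : ∀ i j, i ≠ j → Disjoint (S i) (S j)) (τ : Fin m → ℕ → ℕ)
    (p : ℝ) (hp : ∀ i, p ≤ μ.real {ω | ∀ s ∈ S i, ε s ω = τ i s}) (I : Finset (Fin m)) :
    μ.real {ω | ∀ i ∈ I, ¬ ∀ s ∈ S i, ε s ω = τ i s} ≤ (1 - p) ^ I.card := by
  classical
  induction I using Finset.induction_on with
  | empty => simp
  | insert i I hiI ih =>
    have hdis : Disjoint (S i) (I.biUnion S) := by
      rw [disjoint_biUnion_right]
      intro j hj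
      exact hS i j (fun h => hiI (h ▸ hj))
    have hind := hi.indepFun_finset (S i) (I.biUnion S) hdis hm
    set B1 : Set (↥(S i) → ℕ) := {z | ¬ ∀ s, z s = τ i s} with hB1
    set B2 : Set (↥(I.biUnion S) → ℕ) :=
      {z | ∀ j (hj : j ∈ I), ¬ ∀ s (hs : s ∈ S j), z ⟨s, mem_biUnion.2 ⟨j, hj, hs⟩⟩ = τ j s}
      with hB2
    have h1 := hind.measure_inter_preimage_eq_mul B1 B2 (Set.to_countable _).measurableSet
      (Set.to_countable _).measurableSet
    have e1 : (fun ω (s : ↥(S i)) => ε s ω) ⁻¹' B1 = {ω | ¬ ∀ s ∈ S i, ε s ω = τ i s} := by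
      ext ω
      simp [hB1]
    have e2 : (fun ω (s : ↥(I.biUnion S)) => ε s ω) ⁻¹' B2 =
        {ω | ∀ j ∈ I, ¬ ∀ s ∈ S j, ε s ω = τ j s} := by
      ext ω
      simp [hB2]
    have e3 : {ω | ∀ j ∈ insert i I, ¬ ∀ s ∈ S j, ε s ω = τ j s} =
        (fun ω (s : ↥(S i)) => ε s ω) ⁻¹' B1 ∩ (fun ω (s : ↥(I.biUnion S)) => ε s ω) ⁻¹' B2 := by
      rw [e1, e2]
      ext ω
      simp
    have h2 : μ.real {ω | ∀ j ∈ insert i I, ¬ ∀ s ∈ S j, ε s ω = τ j s} =
        μ.real {ω | ¬ ∀ s ∈ S i, ε s ω = τ i s} *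
          μ.real {ω | ∀ j ∈ I, ¬ ∀ s ∈ S j, ε s ω = τ j s} := by
      rw [e3]
      unfold Measure.real
      rw [h1, ENNReal.toReal_mul, e1, e2]
    have hmeas : MeasurableSet {ω | ∀ s ∈ S i, ε s ω = τ i s} := by
      have : {ω | ∀ s ∈ S i, ε s ω = τ i s} = ⋂ s ∈ S i, ε s ⁻¹' {τ i s} := by
        ext ω; simp
      rw [this]
      exact Finset.measurableSet_biInter _ fun s _ => hm s (measurableSet_singleton _)
    have h3 : μ.real {ω | ¬ ∀ s ∈ S i, ε s ω = τ i s} =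
        1 - μ.real {ω | ∀ s ∈ S i, ε s ω = τ i s} := by
      have : {ω | ¬ ∀ s ∈ S i, ε s ω = τ i s} = {ω | ∀ s ∈ S i, ε s ω = τ i s}ᶜ := rfl
      rw [this, probReal_compl_eq_one_sub hmeas]
    have h4 : μ.real {ω | ¬ ∀ s ∈ S i, ε s ω = τ i s} ≤ 1 - p := by
      rw [h3]
      linarith [hp i]
    have h5 : 0 ≤ μ.real {ω | ¬ ∀ s ∈ S i, ε s ω = τ i s} := measureReal_nonneg
    rw [h2, card_insert_of_notMem hiI, pow_succ, mul_comm]
    exact mul_le_mul ih h4 h5 (by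
      have : (0 : ℝ) ≤ μ.real {ω | ∀ j ∈ I, ¬ ∀ s ∈ S j, ε s ω = τ j s} := measureReal_nonneg
      linarith)

/-- The main finite estimate: no number has `K` representations only with a small probability. -/
theorem prob_fail {A : Set ℕ} {N : ℕ → ℕ} (hN : StrictMono N) (h0 : N 0 = 0)
    {ε : ℕ → Ω → ℕ} (hi : iIndepFun ε μ) (hm : ∀ s, Measurable (ε s))
    {F : Finset ℕ} (hFA : ∀ a ∈ F, a ∈ A) (hinj : Set.InjOn (idx N) F)
    {X V K t m : ℕ} (hX : ∀ a ∈ F, a ≤ X)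
    (ht : t + (2 * X / (V + 1) + 1) * (16 * K ^ 2) < t ^ 2) (hmF : t + 2 * K * m ≤ F.card)
    {q : ℝ} (hq0 : 0 ≤ q) (hq1 : q ≤ 1)
    (hq : ∀ a ∈ F, ∀ j ≤ 2 * V, q ≤ μ.real {ω | ε (idx N a) ω = j}) :
    μ.real {ω | ¬ ∃ n, K ≤ rep (moved A N (fun s => ε s ω)) n} ≤ (1 - q ^ (2 * K)) ^ m := by
  classical
  obtain ⟨𝓜, h𝓜, hdis⟩ := many_families X V K t ht m F hX hmF
  choose τ hτ1 hτ2 using fun i => exists_target hN h0 hFA hinj (h𝓜 i)
  set S : Fin m → Finset ℕ := fun i => (verts (𝓜 i)).image (idx N) with hS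
  have hSd : ∀ i j, i ≠ j → Disjoint (S i) (S j) := by
    intro i j hij
    rw [Finset.disjoint_left]
    intro s hs1 hs2
    obtain ⟨a, ha, rfl⟩ := mem_image.1 hs1
    obtain ⟨b, hb, hab⟩ := mem_image.1 hs2
    have h1 := hinj ((h𝓜 j).2.2.1 hb) ((h𝓜 i).2.2.1 ha) hab
    subst h1
    exact Finset.disjoint_left.1 (hdis i j hij) ha hb
  have hp : ∀ i, q ^ (2 * K) ≤ μ.real {ω | ∀ s ∈ S i, ε s ω = τ i s} := by
    intro i
    have h1 : (S i).card ≤ 2 * K := by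
      have h2 := card_verts_le (𝓜 i)
      rw [(h𝓜 i).1] at h2
      exact card_image_le.trans h2
    refine (pow_le_pow_of_le_one hq0 hq1 h1).trans ?_
    refine prob_pattern hi (S i) (τ i) q hq0 ?_
    intro s hs
    obtain ⟨a, ha, rfl⟩ := mem_image.1 hs
    exact hq a ((h𝓜 i).2.2.1 ha) _ (hτ1 i _)
  have h1 := prob_none hi hm S hSd τ _ hp univ
  rw [card_univ, Fintype.card_fin] at h1
  refine le_trans (measureReal_mono ?_) h1
  intro ω hω i _ hs
  exact hω (hτ2 i (fun s => ε s ω) hs)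

end

end Pool.Agent.Q167.DT
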