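import Pool.Agent.Q167.DT.Sid

/-!
# One scale of the sets with a bounded representation function
-/

set_option autoImplicit false

open Finset Filter Topology

namespace Pool.Agent.Q167.DT

/-- the displaced set at one scale -/
def pts (U D : Finset ℕ) (b : ℕ → ℕ) : Set ℕ := {p | ∃ u ∈ U, ∃ d ∈ D, p = b u + d}

theorem quot_eq {T w c p : ℕ} (hw : 1 ≤ w) (hT : T = 8 * w) (h1 : T * c ≤ p)
    (h2 : p < T * c + 6 * w) : p / T = c := by
  rw [Nat.div_eq_iff (by omega)]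
  constructor
  · rw [mul_comm]; exact h1
  · have : T * c + T = (c + 1) * T := by ring
    rw [mul_comm T c] at h2
    have h3 : (c + 1) * T = c * T + T := by ring
    omega

theorem reps_le_four {U D : Finset ℕ} (hU : Sid U) (hD : Sid D) {b : ℕ → ℕ} {T w u₀ : ℕ}
    (hw : 1 ≤ w) (hT : T = 8 * w)
    (hb : ∀ u ∈ U, ∀ d ∈ D, T * (u₀ + u) ≤ b u + d ∧ b u + d < T * (u₀ + u) + 3 * w) (v : ℕ) :
    rep (pts U D b) v ≤ 4 := by
  classical
  by_cases hne : ∃ p q, p ∈ pts U D b ∧ q ∈ pts U D b ∧ p + q = v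
  swap
  · have : {p : ℕ × ℕ | p.1 ∈ pts U D b ∧ p.2 ∈ pts U D b ∧ p.1 + p.2 = v} = ∅ := by
      ext p
      simp only [Set.mem_ofPred_eq, Set.mem_empty_iff_false, iff_false]
      intro h
      exact hne ⟨p.1, p.2, h⟩
    unfold rep
    rw [this, Set.ncard_empty]
    omega
  obtain ⟨p₀, q₀, ⟨u, hu, d, hd, rfl⟩, ⟨u', hu', d', hd', rfl⟩, h₀⟩ := hne
  have hcov : {p : ℕ × ℕ | p.1 ∈ pts U D b ∧ p.2 ∈ pts U D b ∧ p.1 + p.2 = v} ⊆
      ((({b u + d, b u + d', b u' + d, b u' + d'} : Finset ℕ).image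
        (fun z => (z, v - z)) : Finset (ℕ × ℕ)) : Set (ℕ × ℕ)) := by
    rintro ⟨p, q⟩ ⟨⟨u₁, hu₁, d₁, hd₁, hp⟩, ⟨u₂, hu₂, d₂, hd₂, hq⟩, h⟩
    simp only at hp hq h
    have e1 := hb u hu d hd
    have e2 := hb u' hu' d' hd'
    have e3 := hb u₁ hu₁ d₁ hd₁
    have e4 := hb u₂ hu₂ d₂ hd₂
    have f1 : v / T = (u₀ + u) + (u₀ + u') := by
      refine quot_eq hw hT ?_ ?_
      · rw [mul_add]; omega
      · rw [mul_add]; omega
    have f2 : v / T = (u₀ + u₁) + (u₀ + u₂) := by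
      refine quot_eq hw hT ?_ ?_
      · rw [mul_add]; omega
      · rw [mul_add]; omega
    have f3 : u₁ + u₂ = u + u' := by omega
    have key : p = b u + d ∨ p = b u + d' ∨ p = b u' + d ∨ p = b u' + d' := by
      rcases hU u₁ hu₁ u₂ hu₂ u hu u' hu' f3 with ⟨h1, h2⟩ | ⟨h1, h2⟩
      · subst h1; subst h2
        rcases hD d₁ hd₁ d₂ hd₂ d hd d' hd' (by omega) with ⟨h3, h4⟩ | ⟨h3, h4⟩
        · left; omega
        · right; left; omega
      · subst h1; subst h2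
        rcases hD d₁ hd₁ d₂ hd₂ d hd d' hd' (by omega) with ⟨h3, h4⟩ | ⟨h3, h4⟩
        · right; right; left; omega
        · right; right; right; omega
    rw [mem_coe, mem_image]
    refine ⟨p, ?_, Prod.ext rfl (by show v - p = q; omega)⟩
    simp only [mem_insert, mem_singleton]
    exact key
  unfold rep
  refine (Set.ncard_le_ncard hcov (Finset.finite_toSet _)).trans ?_
  rw [Set.ncard_coe_finset]
  refine card_image_le.trans ?_
  exact Finset.card_le_four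

theorem pts_gap {U D : Finset ℕ} {B : ℕ} (hU : Gap B U) (hD : Gap B D) {b : ℕ → ℕ} {T w u₀ : ℕ}
    (hw : 1 ≤ w) (hT : T = 8 * w)
    (hb : ∀ u ∈ U, ∀ d ∈ D, T * (u₀ + u) ≤ b u + d ∧ b u + d < T * (u₀ + u) + 3 * w)
    {p q : ℕ} (hp : p ∈ pts U D b) (hq : q ∈ pts U D b) (hpq : p < q) : p + B < q := by
  obtain ⟨u, hu, d, hd, rfl⟩ := hp
  obtain ⟨u', hu', d', hd', rfl⟩ := hq
  have e1 := hb u hu d hd
  have e2 := hb u' hu' d' hd'
  rcases lt_trichotomy u u' with h | h | h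
  · have h1 := hU u hu u' hu' h
    have h2 : T * (u₀ + u + (B + 1)) ≤ T * (u₀ + u') := Nat.mul_le_mul_left _ (by omega)
    have h3 : T * (u₀ + u + (B + 1)) = T * (u₀ + u) + T * (B + 1) := by ring
    have h4 : 8 * (B + 1) ≤ T * (B + 1) := Nat.mul_le_mul_right _ (by omega)
    have h5 : T * (B + 1) = T * B + T := by ring
    have h6 : B ≤ T * B := Nat.le_mul_of_pos_left _ (by omega)
    omega
  · subst h
    have := hD d hd d' hd' (by omega)
    omega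
  · exfalso
    have h2 : T * (u₀ + u' + 1) ≤ T * (u₀ + u) := Nat.mul_le_mul_left _ (by omega)
    have h3 : T * (u₀ + u' + 1) = T * (u₀ + u') + T := by ring
    omega

theorem slow_mul {w : ℕ → ℕ} (hslow : ∀ B : ℕ, ∀ᶠ n : ℕ in atTop, w n ^ B ≤ n) (D : ℕ) :
    ∀ᶠ n : ℕ in atTop, D * w n ≤ n := by
  filter_upwards [hslow 2, eventually_ge_atTop (D ^ 2)] with n h1 h2
  have h3 : (D * w n) ^ 2 ≤ n ^ 2 := by
    rw [mul_pow, sq n]
    exact Nat.mul_le_mul h2 h1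
  exact (Nat.pow_le_pow_iff_left (by norm_num)).1 h3

/-- Sidon sets inside the pieces -/
theorem dset {ℓ : ℕ → ℕ} (hℓm : Monotone ℓ) {κ : ℝ} (hκ : 0 < κ) :
    ∃ cD : ℝ, 0 < cD ∧ ∀ B : ℕ, ∀ᶠ n : ℕ in atTop, ∃ D : Finset ℕ, Sid D ∧ Gap B D ∧
      (∀ d ∈ D, ∀ m : ℕ, 1 ≤ m → κ * ℓ n ≤ m → d < m) ∧ cD * ℓ n ≤ (D.card : ℝ) ^ 2 := by
  by_cases hb : ∃ L₀, ∀ n, ℓ n ≤ L₀
  · obtain ⟨L₀, hL₀⟩ := hb
    refine ⟨1 / (L₀ + 1), by positivity, fun B => Eventually.of_forall fun n =>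
      ⟨{0}, (sid_singleton B).1, (sid_singleton B).2, ?_, ?_⟩⟩
    · intro d hd m hm _
      rw [mem_singleton] at hd
      omega
    · rw [card_singleton]
      have : (ℓ n : ℝ) ≤ L₀ := by exact_mod_cast hL₀ n
      rw [one_div, inv_mul_le_iff₀ (by positivity)]
      push_cast
      linarith
  · push Not at hb
    refine ⟨κ / 32, by positivity, fun B => ?_⟩
    obtain ⟨L₁, hL₁⟩ := exists_nat_gt (((128 * B ^ 2 + 72 : ℕ) : ℝ) / κ)
    obtain ⟨n₁, hn₁⟩ := hb L₁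
    filter_upwards [eventually_ge_atTop n₁] with n hn
    have h1 : (L₁ : ℝ) ≤ ℓ n := by exact_mod_cast hn₁.le.trans (hℓm hn)
    have h2 : ((128 * B ^ 2 + 72 : ℕ) : ℝ) ≤ κ * ℓ n := by
      rw [div_lt_iff₀ hκ] at hL₁
      nlinarith
    have h3 : 128 * B ^ 2 + 72 ≤ ⌊κ * ℓ n⌋₊ := Nat.le_floor h2
    obtain ⟨D, hD1, hD2, hD3, hD4⟩ := sidon_exists B ⌊κ * ℓ n⌋₊ h3
    refine ⟨D, hD2, hD3, ?_, ?_⟩
    · intro d hd m _ hm
      have h4 := hD1 d hd
      have h5 : ⌊κ * ℓ n⌋₊ ≤ m := Nat.floor_le_of_le hm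
      omega
    · have h4 := Nat.lt_floor_add_one (κ * ℓ n)
      have h5 : ((⌊κ * ℓ n⌋₊ : ℕ) : ℝ) ≤ 16 * (D.card : ℝ) ^ 2 := by exact_mod_cast hD4
      have h6 : (1 : ℝ) ≤ (⌊κ * ℓ n⌋₊ : ℕ) := by
        have : 1 ≤ ⌊κ * ℓ n⌋₊ := by omega
        exact_mod_cast this
      linarith

theorem scale {P ℓ w : ℕ → ℕ} (hP : StrictMono P) (h0 : P 0 = 0)
    (hlen : ∀ s, P (s + 1) ≤ P s + ℓ (P s)) {κ : ℝ} (hκ : 0 < κ)
    (hlen' : ∀ s, κ * ℓ (P s) ≤ (P (s + 1) : ℝ) - P s)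
    (hℓm : Monotone ℓ) (hwm : Monotone w) (hℓ1 : ∀ n, 1 ≤ ℓ n) (hℓw : ∀ n, ℓ n ≤ w n)
    (hregℓ : ∃ C : ℝ, ∀ᶠ x : ℕ in atTop, (ℓ (2 * x) : ℝ) ≤ C * ℓ x)
    (hslow : ∀ B : ℕ, ∀ᶠ n : ℕ in atTop, w n ^ B ≤ n)
    {g : ℕ → ℝ} (hg : ∀ n, 0 < g n) {δ : ℝ} (hδ : 0 < δ)
    (hfreq : ∃ᶠ n : ℕ in atTop, δ ≤ g n ^ 2 * ℓ n / w n) :
    ∃ C : ℝ, 0 < C ∧ ∀ H : ℕ, ∃ (n : ℕ) (E : Finset ℕ), H < n ∧
      Real.sqrt n / g n ≤ C * E.card ∧ (∀ a ∈ E, 2 * H < a ∧ a ≤ n) ∧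
      ∀ x : ℕ → ℕ, (∀ s, x s ≤ w (P s)) →
        (∀ p ∈ (fun a => a + x (idx P a)) '' (E : Set ℕ), 2 * H < p ∧ p ≤ 2 * n) ∧
        (∀ p ∈ (fun a => a + x (idx P a)) '' (E : Set ℕ),
          ∀ q ∈ (fun a => a + x (idx P a)) '' (E : Set ℕ), p < q → p + H < q) ∧
        ∀ v, rep ((fun a => a + x (idx P a)) '' (E : Set ℕ)) v ≤ 4 := by
  classical
  obtain ⟨C₁, hC₁⟩ := hregℓ
  obtain ⟨x₀, hx₀⟩ := eventually_atTop.1 hC₁
  set C' : ℝ := max C₁ 1 with hC'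
  have hC1 : 1 ≤ C' := le_max_right _ _
  have hreg' : ∀ x, x₀ ≤ x → (ℓ (2 * x) : ℝ) ≤ C' * ℓ x := fun x hx =>
    (hx₀ x hx).trans (mul_le_mul_of_nonneg_right (le_max_left _ _) (by positivity))
  have hκ' : 0 < κ / C' := by positivity
  obtain ⟨cD, hcD, hDs⟩ := dset hℓm hκ'
  refine ⟨Real.sqrt (1024 / (δ * cD)), Real.sqrt_pos.2 (by positivity), ?_⟩
  intro H
  have hsp : ∀ᶠ n : ℕ in atTop, 32 * (128 * H ^ 2 + 72) * w n ≤ n := slow_mul hslow _
  obtain ⟨n, hδn, ⟨D, hD1, hD2, hD3, hD4⟩, hn1, hn2⟩ :=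
    (hfreq.and_eventually ((hDs H).and (hsp.and
      (eventually_ge_atTop (4 * H + 2 * x₀ + 4))))).exists
  obtain ⟨W, hW⟩ : ∃ W, W = w n := ⟨_, rfl⟩
  have hW1 : 1 ≤ W := hW ▸ (hℓ1 n).trans (hℓw n)
  rw [← hW] at hn1
  obtain ⟨T, hT⟩ : ∃ T, T = 8 * W := ⟨_, rfl⟩
  have hT0 : 0 < T := by omega
  obtain ⟨u₀, hu₀⟩ : ∃ u₀, u₀ = n / (2 * T) + 1 := ⟨_, rfl⟩
  obtain ⟨Y, hY⟩ : ∃ Y, Y = n / (32 * W) := ⟨_, rfl⟩
  have hYH : 128 * H ^ 2 + 72 ≤ Y := by
    rw [hY, Nat.le_div_iff_mul_le (by omega)]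
    calc (128 * H ^ 2 + 72) * (32 * W) = 32 * (128 * H ^ 2 + 72) * W := by ring
      _ ≤ n := hn1
  obtain ⟨U, hU1, hU2, hU3, hU4⟩ := sidon_exists H Y hYH
  have hTY : 4 * (T * Y) ≤ n := by
    have h1 : 32 * W * Y ≤ n := by rw [hY]; exact Nat.mul_div_le n (32 * W)
    calc 4 * (T * Y) = 32 * W * Y := by rw [hT]; ring
      _ ≤ n := h1
  have h4T : 4 * T ≤ n := by
    have h1 : T * 1 ≤ T * Y := Nat.mul_le_mul_left _ (by omega)
    omega
  have hu0a : n < 2 * (T * u₀) := by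
    have h1 := Nat.lt_mul_div_succ n (show 0 < 2 * T by omega)
    calc n < 2 * T * (n / (2 * T) + 1) := h1
      _ = 2 * (T * u₀) := by rw [hu₀]; ring
  have hu0b : 2 * (T * u₀) ≤ n + 2 * T := by
    have h1 := Nat.mul_div_le n (2 * T)
    calc 2 * (T * u₀) = 2 * T * (n / (2 * T)) + 2 * T := by rw [hu₀]; ring
      _ ≤ n + 2 * T := by omega
  have hTn : T * (u₀ + Y) ≤ n := by
    rw [mul_add]
    omega
  -- the pieces
  have hex : ∀ u : ℕ, ∃ s, T * (u₀ + u) ≤ P s := fun u =>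
    ⟨T * (u₀ + u), hP.id_le _⟩
  set σ : ℕ → ℕ := fun u => Nat.find (hex u) with hσ
  have hσ1 : ∀ u, T * (u₀ + u) ≤ P (σ u) := fun u => Nat.find_spec (hex u)
  have hσ2 : ∀ u, u < Y → P (σ u) < T * (u₀ + u) + W ∧ P (σ u) ≤ n := by
    intro u hu
    have h1 : T * (u₀ + u + 1) ≤ T * (u₀ + Y) := Nat.mul_le_mul_left _ (by omega)
    have h2 : T * (u₀ + u + 1) = T * (u₀ + u) + T := by ring
    have h3 : σ u ≠ 0 := by
      intro h
      have h4 := hσ1 u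
      rw [h, h0] at h4
      have h5 : T * u₀ ≤ T * (u₀ + u) := Nat.mul_le_mul_left _ (by omega)
      omega
    obtain ⟨s, hs⟩ := Nat.exists_eq_succ_of_ne_zero h3
    have h4 : P s < T * (u₀ + u) := by
      have := Nat.find_min (hex u) (m := s) (by
        have : s < σ u := by omega
        exact this)
      omega
    have h5 := hlen s
    have h6 : ℓ (P s) ≤ ℓ n := hℓm (by omega)
    have h7 := hℓw n
    have h8 : P (σ u) = P (s + 1) := by rw [hs]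
    rw [← hW] at h7
    constructor <;> omega
  have hlenσ : ∀ u, u < Y → κ / C' * ℓ n ≤ ((P (σ u + 1) - P (σ u) : ℕ) : ℝ) := by
    intro u hu
    have h1 := hσ1 u
    have h2 : T * u₀ ≤ T * (u₀ + u) := Nat.mul_le_mul_left _ (by omega)
    have h3 : (ℓ n : ℝ) ≤ C' * ℓ (P (σ u)) := by
      have h4 : (ℓ n : ℝ) ≤ ℓ (2 * P (σ u)) := by exact_mod_cast hℓm (by omega)
      exact h4.trans (hreg' _ (by omega))
    have h4 := hlen' (σ u)
    have h5 : P (σ u) ≤ P (σ u + 1) := hP.monotone (by omega)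
    rw [Nat.cast_sub h5]
    refine le_trans ?_ h4
    rw [div_mul_eq_mul_div, div_le_iff₀ (by positivity)]
    calc κ * ℓ n ≤ κ * (C' * ℓ (P (σ u))) := mul_le_mul_of_nonneg_left h3 hκ.le
      _ = κ * ℓ (P (σ u)) * C' := by ring
  have hmem : ∀ u ∈ U, ∀ d ∈ D, P (σ u) + d < P (σ u + 1) := by
    intro u hu d hd
    have h1 : P (σ u) < P (σ u + 1) := hP (by omega)
    have := hD3 d hd (P (σ u + 1) - P (σ u)) (by omega) (hlenσ u (hU1 u hu))
    omega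
  have hbd : ∀ u ∈ U, ∀ d ∈ D, T * (u₀ + u) ≤ P (σ u) + d ∧
      P (σ u) + d < T * (u₀ + u) + 2 * W ∧ P (σ u) + d ≤ n := by
    intro u hu d hd
    have h1 := hσ1 u
    have h2 := hσ2 u (hU1 u hu)
    have h3 := hmem u hu d hd
    have h4 := hlen (σ u)
    have h5 : ℓ (P (σ u)) ≤ ℓ n := hℓm h2.2
    have h6 := hℓw n
    rw [← hW] at h6
    have h7 : T * (u₀ + u + 1) ≤ T * (u₀ + Y) := Nat.mul_le_mul_left _ (by
      have := hU1 u hu
      omega)
    have h8 : T * (u₀ + u + 1) = T * (u₀ + u) + T := by ring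
    refine ⟨by omega, by omega, by omega⟩
  have hidx : ∀ u ∈ U, ∀ d ∈ D, idx P (P (σ u) + d) = σ u := by
    intro u hu d hd
    exact idx_eq hP h0 (by omega) (hmem u hu d hd)
  have hquot : ∀ u ∈ U, ∀ d ∈ D, (P (σ u) + d) / T = u₀ + u := by
    intro u hu d hd
    have := hbd u hu d hd
    exact quot_eq hW1 hT this.1 (by omega)
  set E : Finset ℕ := (U ×ˢ D).image (fun e => P (σ e.1) + e.2) with hE
  have hEc : E.card = U.card * D.card := by
    rw [hE, card_image_of_injOn, card_product]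
    rintro ⟨u, d⟩ he ⟨u', d'⟩ he' h
    rw [mem_coe, mem_product] at he he'
    have h' : P (σ u) + d = P (σ u') + d' := h
    have h1 := hquot u he.1 d he.2
    have h2 := hquot u' he'.1 d' he'.2
    rw [h', h2] at h1
    have h3 : u = u' := by omega
    subst h3
    exact Prod.ext rfl (by show d = d'; omega)
  refine ⟨n, E, by omega, ?_, ?_, ?_⟩
  · -- the density
    have hWr : (0 : ℝ) < W := by exact_mod_cast hW1
    have hn0 : (0 : ℝ) < n := by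
      have : 0 < n := by omega
      exact_mod_cast this
    have hYn : (n : ℝ) ≤ 64 * W * Y := by
      have h1 : n < 32 * W * (Y + 1) := by
        rw [hY]
        exact Nat.lt_mul_div_succ n (by omega)
      have h2 : 32 * W * (Y + 1) = 32 * W * Y + 32 * W := by ring
      have h3 : 32 * W * 1 ≤ 32 * W * Y := Nat.mul_le_mul_left _ (by omega)
      have h4 : n ≤ 64 * W * Y := by
        have h5 : 64 * W * Y = 32 * W * Y + 32 * W * Y := by ring
        omega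
      exact_mod_cast h4
    have hUc : (Y : ℝ) ≤ 16 * (U.card : ℝ) ^ 2 := by exact_mod_cast hU4
    have hℓ0 : (0 : ℝ) < ℓ n := by
      have := hℓ1 n
      exact_mod_cast this
    -- `cD n ℓ ≤ 1024 W |E| ^ 2`
    have h1 : cD * ℓ n * n ≤ 1024 * W * (E.card : ℝ) ^ 2 := by
      rw [hEc]
      push_cast
      calc cD * ℓ n * n ≤ (D.card : ℝ) ^ 2 * (64 * W * (16 * (U.card : ℝ) ^ 2)) := by
            refine mul_le_mul hD4 ?_ hn0.le (by positivity)
            exact hYn.trans (mul_le_mul_of_nonneg_left hUc (by positivity))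
        _ = _ := by ring
    have h2 : δ * W ≤ g n ^ 2 * ℓ n := by
      rw [← hW] at hδn
      rwa [le_div_iff₀ hWr] at hδn
    have hg2 : 0 < g n ^ 2 := pow_pos (hg n) 2
    -- `n / g ^ 2 ≤ 1024 / (δ cD) |E| ^ 2`
    have h3 : (n : ℝ) ≤ 1024 / (δ * cD) * (E.card : ℝ) ^ 2 * g n ^ 2 := by
      have h4 : δ * cD * n * (ℓ n * W) ≤ 1024 * (E.card : ℝ) ^ 2 * g n ^ 2 * (ℓ n * W) := by
        calc δ * cD * n * (ℓ n * W) = (δ * W) * (cD * ℓ n * n) := by ring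
          _ ≤ (g n ^ 2 * ℓ n) * (1024 * W * (E.card : ℝ) ^ 2) :=
              mul_le_mul h2 h1 (by positivity) (by positivity)
          _ = _ := by ring
      have h5 := le_of_mul_le_mul_right h4 (by positivity)
      have h6 : 1024 / (δ * cD) * (E.card : ℝ) ^ 2 * g n ^ 2 =
          (1024 * (E.card : ℝ) ^ 2 * g n ^ 2) / (δ * cD) := by ring
      rw [h6, le_div_iff₀ (by positivity)]
      linarith
    rw [div_le_iff₀ (hg n)]
    refine Real.sqrt_le_iff.2 ⟨mul_nonneg (by positivity) (hg n).le, ?_⟩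
    rw [mul_pow, mul_pow, Real.sq_sqrt (by positivity)]
    exact h3
  · intro a ha
    obtain ⟨⟨u, d⟩, he, rfl⟩ := mem_image.1 ha
    rw [mem_product] at he
    have h1 := hbd u he.1 d he.2
    have h2 : T * u₀ ≤ T * (u₀ + u) := Nat.mul_le_mul_left _ (by omega)
    show 2 * H < P (σ u) + d ∧ P (σ u) + d ≤ n
    constructor <;> omega
  · intro x hx
    set b : ℕ → ℕ := fun u => P (σ u) + x (σ u) with hb
    have himg : (fun a => a + x (idx P a)) '' (E : Set ℕ) = pts U D b := by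
      ext p
      constructor
      · rintro ⟨a, ha, rfl⟩
        obtain ⟨⟨u, d⟩, he, rfl⟩ := mem_image.1 ha
        rw [mem_product] at he
        refine ⟨u, he.1, d, he.2, ?_⟩
        show P (σ u) + d + x (idx P (P (σ u) + d)) = P (σ u) + x (σ u) + d
        rw [hidx u he.1 d he.2]
        ring
      · rintro ⟨u, hu, d, hd, rfl⟩
        refine ⟨P (σ u) + d, ?_, ?_⟩
        · rw [mem_coe, hE, mem_image]
          exact ⟨(u, d), mem_product.2 ⟨hu, hd⟩, rfl⟩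
        · show P (σ u) + d + x (idx P (P (σ u) + d)) = P (σ u) + x (σ u) + d
          rw [hidx u hu d hd]
          ring
    have hxb : ∀ u ∈ U, x (σ u) ≤ W := by
      intro u hu
      have h1 := hσ2 u (hU1 u hu)
      rw [hW]
      exact (hx (σ u)).trans (hwm h1.2)
    have hbb : ∀ u ∈ U, ∀ d ∈ D, T * (u₀ + u) ≤ b u + d ∧ b u + d < T * (u₀ + u) + 3 * W := by
      intro u hu d hd
      have h1 := hbd u hu d hd
      have h2 := hxb u hu
      show T * (u₀ + u) ≤ P (σ u) + x (σ u) + d ∧ P (σ u) + x (σ u) + d < T * (u₀ + u) + 3 * W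
      constructor <;> omega
    rw [himg]
    refine ⟨?_, ?_, ?_⟩
    · rintro p ⟨u, hu, d, hd, rfl⟩
      have h1 := hbb u hu d hd
      have h2 : T * u₀ ≤ T * (u₀ + u) := Nat.mul_le_mul_left _ (by omega)
      have h3 := hbd u hu d hd
      have h4 := hxb u hu
      have h5 : b u + d = P (σ u) + d + x (σ u) := by
        show P (σ u) + x (σ u) + d = P (σ u) + d + x (σ u)
        ring
      constructor <;> omega
    · intro p hp q hq hpq
      exact pts_gap hU3 hD2 hW1 hT hbb hp hq hpq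
    · intro v
      exact reps_le_four hU2 hD1 hW1 hT hbb v

end Pool.Agent.Q167.DT
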