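import Pool.Agent.Q167.DT.Scale

/-!
# Sets whose displacements all have a bounded representation function
-/

set_option autoImplicit false

open Finset Filter Topology

namespace Pool.Agent.Q167.DT

theorem bounded_exists {P ℓ w : ℕ → ℕ} (hP : StrictMono P) (h0 : P 0 = 0)
    (hlen : ∀ s, P (s + 1) ≤ P s + ℓ (P s)) {κ : ℝ} (hκ : 0 < κ)
    (hlen' : ∀ s, κ * ℓ (P s) ≤ (P (s + 1) : ℝ) - P s)
    (hℓm : Monotone ℓ) (hwm : Monotone w) (hℓ1 : ∀ n, 1 ≤ ℓ n) (hℓw : ∀ n, ℓ n ≤ w n)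
    (hregℓ : ∃ C : ℝ, ∀ᶠ x : ℕ in atTop, (ℓ (2 * x) : ℝ) ≤ C * ℓ x)
    (hslow : ∀ B : ℕ, ∀ᶠ n : ℕ in atTop, w n ^ B ≤ n)
    {g : ℕ → ℝ} (hg : ∀ n, 0 < g n)
    (hlim : ¬ Tendsto (fun n => g n ^ 2 * ℓ n / w n) atTop (𝓝 0)) :
    ∃ A : Set ℕ, (∃ C : ℝ, 0 < C ∧ ∃ᶠ n : ℕ in atTop,
        Real.sqrt n / g n ≤ C * ((A ∩ Set.Icc 1 n).ncard : ℝ)) ∧
      ∀ x : ℕ → ℕ, (∀ s, x s ≤ w (P s)) → ∀ v, rep (moved A P x) v ≤ 6 := by
  classical
  -- a positive lower bound along a subsequence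
  obtain ⟨δ, hδ, hfreq⟩ : ∃ δ : ℝ, 0 < δ ∧ ∃ᶠ n : ℕ in atTop, δ ≤ g n ^ 2 * ℓ n / w n := by
    by_contra hcon
    push Not at hcon
    apply hlim
    rw [Metric.tendsto_atTop]
    intro δ hδ
    have h1 := hcon δ hδ
    obtain ⟨N, hN⟩ := eventually_atTop.1 h1
    refine ⟨N, fun n hn => ?_⟩
    have h2 := hN n hn
    rw [Real.dist_eq, sub_zero, abs_of_nonneg]
    · exact h2
    · have := hg n
      positivity
  obtain ⟨C, hC, hE⟩ := scale hP h0 hlen hκ hlen' hℓm hwm hℓ1 hℓw hregℓ hslow hg hδ hfreq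
  choose n E hEn hEd hEa hEx using hE
  -- the scales
  set H : ℕ → ℕ := fun k => Nat.rec 0 (fun _ h => 2 * n h + 1) k with hH
  have hHs : ∀ k, H (k + 1) = 2 * n (H k) + 1 := fun k => rfl
  have hHlt : ∀ k, H k < H (k + 1) := by
    intro k
    have := hEn (H k)
    rw [hHs]
    omega
  have hHmono : StrictMono H := strictMono_nat_of_lt_succ hHlt
  have hHk : ∀ k, k ≤ H k := fun k => hHmono.id_le k
  refine ⟨⋃ k, (E (H k) : Set ℕ), ⟨C, hC, ?_⟩, ?_⟩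
  · rw [frequently_atTop]
    intro N
    refine ⟨n (H N), (hHk N).trans (hEn _).le, (hEd (H N)).trans ?_⟩
    refine mul_le_mul_of_nonneg_left ?_ hC.le
    have : (E (H N)).card ≤ ((⋃ k, (E (H k) : Set ℕ)) ∩ Set.Icc 1 (n (H N))).ncard := by
      rw [← Set.ncard_coe_finset]
      refine Set.ncard_le_ncard ?_ ((Set.finite_Icc _ _).subset Set.inter_subset_right)
      intro a ha
      have h1 := hEa (H N) a (by exact_mod_cast ha)
      exact ⟨Set.mem_iUnion.2 ⟨N, ha⟩, by omega, h1.2⟩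
    exact_mod_cast this
  · intro x hx v
    have hmv : moved (⋃ k, (E (H k) : Set ℕ)) P x =
        ⋃ k, (fun a => a + x (idx P a)) '' (E (H k) : Set ℕ) := by
      ext p
      constructor
      · rintro ⟨s, a, ha, h1, h2, rfl⟩
        obtain ⟨k, hk⟩ := Set.mem_iUnion.1 ha
        refine Set.mem_iUnion.2 ⟨k, a, hk, ?_⟩
        show a + x (idx P a) = a + x s
        rw [idx_eq hP h0 h1 h2]
      · intro hp
        obtain ⟨k, a, ha, rfl⟩ := Set.mem_iUnion.1 hp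
        exact mem_moved hP h0 (Set.mem_iUnion.2 ⟨k, ha⟩)
    rw [hmv]
    refine glue _ H hHk ?_ ?_ ?_ ?_ v
    · intro j k hjk p hp
      have h1 := ((hEx (H j) x hx).1 p hp).2
      have h2 : H (j + 1) ≤ H k := hHmono.monotone hjk
      rw [hHs] at h2
      omega
    · intro k p hp
      exact ((hEx (H k) x hx).1 p hp).1
    · intro k p hp q hq hpq
      exact (hEx (H k) x hx).2.1 p hp q hq hpq
    · intro k v
      exact (hEx (H k) x hx).2.2 v

end Pool.Agent.Q167.DT
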