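import Pool.Agent.Q167.DT.Prob
import Pool.Agent.Q137.GridDist.Sidon

/-!
# Sidon sets with large gaps, and gluing of scales
-/

set_option autoImplicit false

open Finset

namespace Pool.Agent.Q167.DT

/-- Sidon sets -/
def Sid (U : Finset ℕ) : Prop :=
  ∀ a ∈ U, ∀ b ∈ U, ∀ c ∈ U, ∀ d ∈ U, a + b = c + d → (a = c ∧ b = d) ∨ (a = d ∧ b = c)

/-- different elements have distance greater than `B` -/
def Gap (B : ℕ) (U : Finset ℕ) : Prop := ∀ a ∈ U, ∀ b ∈ U, a < b → a + B < b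

theorem sid_singleton (B : ℕ) : Sid {0} ∧ Gap B {0} := by
  constructor
  · intro a ha b hb c hc d hd _
    rw [mem_singleton] at ha hb hc hd
    left; omega
  · intro a ha b hb h
    rw [mem_singleton] at ha hb
    omega

theorem sidon_exists (B Y : ℕ) (hY : 128 * B ^ 2 + 72 ≤ Y) :
    ∃ U : Finset ℕ, (∀ u ∈ U, u < Y) ∧ Sid U ∧ Gap B U ∧ Y ≤ 16 * U.card ^ 2 := by
  classical
  obtain ⟨m, hm⟩ : ∃ m, m = Nat.sqrt (Y / 8) := ⟨_, rfl⟩
  have hm1 : m * m ≤ Y / 8 := by rw [hm]; exact Nat.sqrt_le _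
  have hm2 : Y / 8 < (m + 1) * (m + 1) := by rw [hm]; exact Nat.lt_succ_sqrt _
  obtain ⟨p, hp, hp1, hp2⟩ := Nat.exists_prime_lt_and_le_two_mul m (by
    intro h
    rw [h] at hm2
    omega)
  have hY8 : Y < 8 * (m + 1) * (m + 1) := by
    have : 8 * (m + 1) * (m + 1) = 8 * ((m + 1) * (m + 1)) := by ring
    omega
  have hYp : Y < 8 * p ^ 2 := by nlinarith
  have hp3 : 3 < p := by nlinarith
  have hpB : 4 * B ≤ p := by
    by_contra h
    push Not at h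
    nlinarith
  have hpY : 2 * p ^ 2 ≤ Y := by
    have h1 : p ^ 2 ≤ (2 * m) ^ 2 := Nat.pow_le_pow_left hp2 2
    have h2 : 8 * (Y / 8) ≤ Y := Nat.mul_div_le Y 8
    nlinarith
  set T : Finset ℕ := (range p).image (Q137.GridDist.et p) with hT
  have hTY : ∀ u ∈ T, u < Y := by
    intro u hu
    obtain ⟨k, hk, rfl⟩ := mem_image.1 hu
    exact (Q137.GridDist.et_lt (mem_range.1 hk)).trans_le hpY
  have hTS : Sid T := by
    intro a ha b hb c hc d hd h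
    obtain ⟨a, ha', rfl⟩ := mem_image.1 ha
    obtain ⟨b, hb', rfl⟩ := mem_image.1 hb
    obtain ⟨c, hc', rfl⟩ := mem_image.1 hc
    obtain ⟨d, hd', rfl⟩ := mem_image.1 hd
    rw [mem_range] at ha' hb' hc' hd'
    rcases Q137.GridDist.et_sidon hp (by omega) ha' hd' hc' hb' h with ⟨h1, h2⟩ | ⟨h1, h2⟩
    · left; rw [h1, h2]; exact ⟨rfl, rfl⟩
    · right; rw [h1, h2]; exact ⟨rfl, rfl⟩
  have hTc : T.card = p := by
    rw [hT, card_image_of_injOn, card_range]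
    intro a ha b hb h
    rw [mem_coe, mem_range] at ha hb
    rcases Q137.GridDist.et_sidon hp (by omega) ha hb hb hb (by
      have h' : Q137.GridDist.et p a = Q137.GridDist.et p b := h
      rw [h']) with ⟨h1, _⟩ | ⟨h1, _⟩
    · exact h1
    · exact h1
  set U : Finset ℕ := T.filter (fun u => ∀ v ∈ T, u < v → u + B < v) with hU
  have hrem : (T.filter (fun u => ¬ ∀ v ∈ T, u < v → u + B < v)).card ≤ B := by
    have hch : ∀ u : ℕ, ∃ v, (¬ ∀ v ∈ T, u < v → u + B < v) → v ∈ T ∧ u < v ∧ v ≤ u + B := by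
      intro u
      by_cases h : ∀ v ∈ T, u < v → u + B < v
      · exact ⟨0, fun h' => absurd h h'⟩
      · have h' := h
        push Not at h'
        obtain ⟨v, hv, h1, h2⟩ := h'
        exact ⟨v, fun _ => ⟨hv, h1, h2⟩⟩
    choose v hv using hch
    have h1 := card_le_card_of_injOn (s := T.filter (fun u => ¬ ∀ v ∈ T, u < v → u + B < v))
      (t := Icc 1 B) (fun u => v u - u) (by
        intro u hu
        have hu' := hu
        rw [mem_coe, mem_filter] at hu'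
        have := hv u hu'.2
        rw [mem_coe, mem_Icc]
        show 1 ≤ v u - u ∧ v u - u ≤ B
        constructor <;> omega) (by
        intro u hu u' hu' h
        rw [mem_coe, mem_filter] at hu hu'
        have h2 := hv u hu.2
        have h3 := hv u' hu'.2
        have h4 : v u - u = v u' - u' := h
        rcases hTS (v u) h2.1 u' hu'.1 (v u') h3.1 u hu.1 (by omega) with ⟨h5, h6⟩ | ⟨h5, h6⟩
        · exact h6.symm
        · omega)
    rwa [Nat.card_Icc, Nat.add_sub_cancel] at h1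
  have hUc : p ≤ U.card + B := by
    have h1 : U.card + (T.filter (fun u => ¬ ∀ v ∈ T, u < v → u + B < v)).card = T.card :=
      card_filter_add_card_filter_not (s := T) (fun u => ∀ v ∈ T, u < v → u + B < v)
    rw [hTc] at h1
    omega
  refine ⟨U, fun u hu => hTY u (mem_filter.1 hu).1, ?_, ?_, ?_⟩
  · intro a ha b hb c hc d hd h
    exact hTS a (mem_filter.1 ha).1 b (mem_filter.1 hb).1 c (mem_filter.1 hc).1 d
      (mem_filter.1 hd).1 h
  · intro a ha b hb h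
    exact (mem_filter.1 ha).2 b (mem_filter.1 hb).1 h
  · obtain ⟨z, hz⟩ : ∃ z, z = U.card := ⟨_, rfl⟩
    rw [← hz] at hUc ⊢
    have h1 : 3 * p ≤ 4 * z := by omega
    have h2 : 9 * p ^ 2 ≤ 16 * z ^ 2 := by nlinarith
    omega

/-- gluing of the scales -/
theorem glue (E : ℕ → Set ℕ) (H : ℕ → ℕ) (hH : ∀ k, k ≤ H k)
    (h1 : ∀ j k, j < k → ∀ p ∈ E j, p ≤ H k) (h2 : ∀ k, ∀ p ∈ E k, 2 * H k < p)
    (h3 : ∀ k, ∀ p ∈ E k, ∀ q ∈ E k, p < q → p + H k < q)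
    (h4 : ∀ k v, rep (E k) v ≤ 4) (v : ℕ) : rep (⋃ k, E k) v ≤ 6 := by
  classical
  by_cases hne : ∃ p q, p ∈ (⋃ k, E k) ∧ q ∈ (⋃ k, E k) ∧ p + q = v
  swap
  · have : {p : ℕ × ℕ | p.1 ∈ (⋃ k, E k) ∧ p.2 ∈ (⋃ k, E k) ∧ p.1 + p.2 = v} = ∅ := by
      ext p
      simp only [Set.mem_ofPred_eq, Set.mem_empty_iff_false, iff_false]
      intro h
      exact hne ⟨p.1, p.2, h⟩
    unfold rep
    rw [this, Set.ncard_empty]
    omega
  set J : Set ℕ := {j | ∃ p ∈ E j, ∃ q ∈ (⋃ k, E k), p + q = v} with hJ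
  have hJne : J.Nonempty := by
    obtain ⟨p, q, hp, hq, h⟩ := hne
    obtain ⟨j, hj⟩ := Set.mem_iUnion.1 hp
    exact ⟨j, p, hj, q, hq, h⟩
  have hJb : BddAbove J := by
    refine ⟨v, ?_⟩
    rintro j ⟨p, hp, q, hq, h⟩
    have := h2 j p hp
    have := hH j
    omega
  obtain ⟨k, hk⟩ : ∃ k, k = sSup J := ⟨_, rfl⟩
  have hkJ : k ∈ J := hk ▸ Nat.sSup_mem hJne hJb
  have hkmax : ∀ j ∈ J, j ≤ k := fun j hj => hk ▸ le_csSup hJb hj
  obtain ⟨p₀, hp₀, q₀, hq₀, h₀⟩ := hkJ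
  have hp₀k := h2 k p₀ hp₀
  have hcov : {p : ℕ × ℕ | p.1 ∈ (⋃ k, E k) ∧ p.2 ∈ (⋃ k, E k) ∧ p.1 + p.2 = v} ⊆
      {p : ℕ × ℕ | p.1 ∈ E k ∧ p.2 ∈ E k ∧ p.1 + p.2 = v} ∪
      ({p : ℕ × ℕ | p.1 ∈ E k ∧ p.2 ≤ H k ∧ p.1 + p.2 = v} ∪
        {p : ℕ × ℕ | p.2 ∈ E k ∧ p.1 ≤ H k ∧ p.1 + p.2 = v}) := by
    rintro ⟨p, q⟩ ⟨hp, hq, h⟩
    have hp' := hp
    have hq' := hq
    obtain ⟨i, hi⟩ := Set.mem_iUnion.1 hp
    obtain ⟨j, hj⟩ := Set.mem_iUnion.1 hq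
    have hik : i ≤ k := hkmax i ⟨p, hi, q, hq', h⟩
    have hjk : j ≤ k := hkmax j ⟨q, hj, p, hp', by rw [add_comm]; exact h⟩
    rcases hik.lt_or_eq with hik | rfl
    · have hpi := h1 i k hik p hi
      rcases hjk.lt_or_eq with hjk | rfl
      · exfalso
        have hqj := h1 j k hjk q hj
        have h' : p + q = v := h
        omega
      · right; right
        exact ⟨hj, hpi, h⟩
    · rcases hjk.lt_or_eq with hjk | rfl
      · right; left
        exact ⟨hi, h1 j i hjk q hj, h⟩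
      · left
        exact ⟨hi, hj, h⟩
  have hs1 : {p : ℕ × ℕ | p.1 ∈ E k ∧ p.2 ≤ H k ∧ p.1 + p.2 = v}.ncard ≤ 1 := by
    rw [Set.ncard_le_one ?_]
    · rintro ⟨p, q⟩ ⟨hp, hq, h⟩ ⟨p', q'⟩ ⟨hp', hq', h'⟩
      simp only at hp hq h hp' hq' h'
      rcases lt_trichotomy p p' with hlt | heq | hgt
      · have := h3 k p hp p' hp' hlt
        omega
      · exact Prod.ext heq (by show q = q'; omega)
      · have := h3 k p' hp' p hp hgt
        omega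
    · refine Set.Finite.subset (Finset.finite_toSet (range (v + 1) ×ˢ range (v + 1))) ?_
      rintro p ⟨-, -, h⟩
      rw [Finset.mem_coe, Finset.mem_product, mem_range, mem_range]
      omega
  have hs2 : {p : ℕ × ℕ | p.2 ∈ E k ∧ p.1 ≤ H k ∧ p.1 + p.2 = v}.ncard ≤ 1 := by
    rw [Set.ncard_le_one ?_]
    · rintro ⟨q, p⟩ ⟨hp, hq, h⟩ ⟨q', p'⟩ ⟨hp', hq', h'⟩
      simp only at hp hq h hp' hq' h'
      rcases lt_trichotomy p p' with hlt | heq | hgt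
      · have := h3 k p hp p' hp' hlt
        omega
      · exact Prod.ext (by show q = q'; omega) heq
      · have := h3 k p' hp' p hp hgt
        omega
    · refine Set.Finite.subset (Finset.finite_toSet (range (v + 1) ×ˢ range (v + 1))) ?_
      rintro p ⟨-, -, h⟩
      rw [Finset.mem_coe, Finset.mem_product, mem_range, mem_range]
      omega
  have hfin : ({p : ℕ × ℕ | p.1 ∈ E k ∧ p.2 ∈ E k ∧ p.1 + p.2 = v} ∪
      ({p : ℕ × ℕ | p.1 ∈ E k ∧ p.2 ≤ H k ∧ p.1 + p.2 = v} ∪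
        {p : ℕ × ℕ | p.2 ∈ E k ∧ p.1 ≤ H k ∧ p.1 + p.2 = v})).Finite := by
    refine Set.Finite.subset (Finset.finite_toSet (range (v + 1) ×ˢ range (v + 1))) ?_
    rintro p (⟨-, -, h⟩ | ⟨-, -, h⟩ | ⟨-, -, h⟩) <;>
    · rw [Finset.mem_coe, Finset.mem_product, mem_range, mem_range]
      omega
  have h5 := Set.ncard_le_ncard hcov hfin
  have h6 := Set.ncard_union_le {p : ℕ × ℕ | p.1 ∈ E k ∧ p.2 ∈ E k ∧ p.1 + p.2 = v}
    ({p : ℕ × ℕ | p.1 ∈ E k ∧ p.2 ≤ H k ∧ p.1 + p.2 = v} ∪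
        {p : ℕ × ℕ | p.2 ∈ E k ∧ p.1 ≤ H k ∧ p.1 + p.2 = v})
  have h7 := Set.ncard_union_le {p : ℕ × ℕ | p.1 ∈ E k ∧ p.2 ≤ H k ∧ p.1 + p.2 = v}
    {p : ℕ × ℕ | p.2 ∈ E k ∧ p.1 ≤ H k ∧ p.1 + p.2 = v}
  have h8 := h4 k v
  unfold rep at h8 ⊢
  omega

end Pool.Agent.Q167.DT
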