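import Pool.Agent.Q167.DT.Thr

/-!
# The displacement threshold: the estimate at one scale
-/

set_option autoImplicit false

open Finset MeasureTheory ProbabilityTheory

namespace Pool.Agent.Q167.DT

/-- the numerical condition for the existence of many families -/
theorem num_t {f K U p : ℕ} (hf : 6 ≤ f) (hUp : U + 1 ≤ p)
    (hA : 1280 * (K : ℝ) ^ 2 * p ≤ (f : ℝ) ^ 2 * (U + 1)) :
    f / 2 + (2 * (2 * p) / (U + 1) + 1) * (16 * K ^ 2) < (f / 2) ^ 2 := by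
  have hU : (0 : ℝ) < U + 1 := by positivity
  have h1 : ((2 * (2 * p) / (U + 1) : ℕ) : ℝ) ≤ 4 * p / (U + 1) := by
    have := @Nat.cast_div_le ℝ _ _ _ (2 * (2 * p)) (U + 1)
    push_cast at this
    refine this.trans (le_of_eq ?_)
    ring
  have h2 : (1 : ℝ) ≤ p / (U + 1) := by
    rw [le_div_iff₀ hU]
    have : ((U + 1 : ℕ) : ℝ) ≤ p := by exact_mod_cast hUp
    push_cast at this
    linarith
  have h3 : 80 * (K : ℝ) ^ 2 * (p / (U + 1)) ≤ (f : ℝ) ^ 2 / 16 := by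
    have : 80 * (K : ℝ) ^ 2 * (p / (U + 1)) = (80 * (K : ℝ) ^ 2 * p) / (U + 1) := by ring
    rw [this, div_le_iff₀ hU]
    nlinarith
  have h4 : (((2 * (2 * p) / (U + 1) : ℕ) : ℝ) + 1) * (16 * (K : ℝ) ^ 2) ≤ (f : ℝ) ^ 2 / 16 := by
    have h5 : ((2 * (2 * p) / (U + 1) : ℕ) : ℝ) + 1 ≤ 5 * (p / (U + 1)) := by
      have : (4 : ℝ) * p / (U + 1) = 4 * (p / (U + 1)) := by ring
      linarith
    calc (((2 * (2 * p) / (U + 1) : ℕ) : ℝ) + 1) * (16 * (K : ℝ) ^ 2)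
        ≤ (5 * (p / (U + 1))) * (16 * (K : ℝ) ^ 2) :=
          mul_le_mul_of_nonneg_right h5 (by positivity)
      _ = 80 * (K : ℝ) ^ 2 * (p / (U + 1)) := by ring
      _ ≤ _ := h3
  have hf' : (6 : ℝ) ≤ f := by exact_mod_cast hf
  obtain ⟨t, ht⟩ : ∃ t, t = f / 2 := ⟨_, rfl⟩
  rw [← ht]
  have h6 : (f : ℝ) ≤ 2 * t + 1 := by
    have : f ≤ 2 * t + 1 := by omega
    exact_mod_cast this
  have h7 : 2 * (t : ℝ) ≤ f := by
    have : 2 * t ≤ f := by omega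
    exact_mod_cast this
  have h8 : (t : ℝ) + (((2 * (2 * p) / (U + 1) : ℕ) : ℝ) + 1) * (16 * (K : ℝ) ^ 2) <
      (t : ℝ) ^ 2 := by
    have : (t : ℝ) + (f : ℝ) ^ 2 / 16 < (t : ℝ) ^ 2 := by nlinarith
    linarith
  exact_mod_cast h8

variable {Ω : Type*} [MeasurableSpace Ω] {μ : Measure Ω} [IsProbabilityMeasure μ]

theorem step {A : Set ℕ} {P ℓ w : ℕ → ℕ} (hP : StrictMono P) (h0 : P 0 = 0)
    (hlen : ∀ s, P (s + 1) ≤ P s + ℓ (P s)) (hℓm : Monotone ℓ) (hwm : Monotone w)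
    (hℓ1 : ∀ n, 1 ≤ ℓ n) (hℓw : ∀ n, ℓ n ≤ w n)
    {x₀ : ℕ} {C ρ : ℝ} (hC1 : 1 ≤ C) (hC2 : C < 2) (hρ0 : 0 < ρ) (hρ1 : ρ < 1)
    (hρ : ρ ^ 2 = C / 2) (hreg : ∀ x, x₀ ≤ x → (w (2 * x) : ℝ) ≤ C * w x)
    {ε : ℕ → Ω → ℕ} (hi : iIndepFun ε μ) (hm : ∀ s, Measurable (ε s)) {β : ℝ} (hβ0 : 0 < β)
    (hβ1 : β ≤ 1) (hε : ∀ s j, j ≤ w (P s) → β / (w (P s) + 1) ≤ μ.real {ω | ε s ω = j})
    {K : ℕ} (hK : 1 ≤ K) {c : ℝ} (hc : 0 < c) {n : ℕ} {G : ℝ} (hG : 0 < G)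
    (hS : c * Real.sqrt n ≤ G * (seg A n).card) {L Θ : ℝ}
    (hΘ : 81920 * (K : ℝ) ^ 3 / ((1 - ρ) ^ 2 * c ^ 2) ≤ Θ) {D₁ D₂ : ℕ}
    (hD₁ : 16 * K * 4 ^ K * L / β ^ (2 * K) ≤ D₁) (hD₁' : 16 * K ≤ D₁) (hD₂ : 2 * D₁ ^ 2 ≤ D₂)
    (hD₂' : 2 * x₀ + 2 ≤ D₂) (hD₂'' : 4 / (c ^ 2 * Θ) ≤ D₂)
    (hΘn : Θ * (G ^ 2 * ℓ n) ≤ w n) (hn : 8 * (D₂ * w n ^ (4 * K + 1)) ^ 3 ≤ n) :
    μ.real {ω | ¬ ∃ v, K ≤ rep (moved A P (fun s => ε s ω)) v} ≤ Real.exp (-L) := by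
  classical
  have hρ1' : 0 < 1 - ρ := by linarith
  have hK' : (1 : ℝ) ≤ K := by exact_mod_cast hK
  have hw1 : 1 ≤ w n := (hℓ1 n).trans (hℓw n)
  have hy1 : (1 : ℝ) ≤ w n := by exact_mod_cast hw1
  have hℓ1' : (1 : ℝ) ≤ ℓ n := by exact_mod_cast hℓ1 n
  have hΘ0 : 0 < Θ := lt_of_lt_of_le (by positivity) hΘ
  have hC0 : 0 < C := by linarith
  have hn1 : 1 ≤ n := by
    refine le_trans ?_ hn
    have h1 : 1 ≤ D₂ * w n ^ (4 * K + 1) :=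
      Nat.one_le_iff_ne_zero.2 (Nat.mul_ne_zero (by omega) (pow_ne_zero _ (by omega)))
    have h2 : 1 ≤ (D₂ * w n ^ (4 * K + 1)) ^ 3 := Nat.one_le_pow _ _ h1
    omega
  obtain ⟨r, hr⟩ : ∃ r, r = Nat.log 2 n := ⟨_, rfl⟩
  obtain ⟨i₀, hi₀⟩ : ∃ i₀, i₀ = r / 3 := ⟨_, rfl⟩
  have hrn : 2 ^ r ≤ n := by rw [hr]; exact Nat.pow_log_le_self 2 (by omega)
  have hrn' : n < 2 ^ (r + 1) := by rw [hr]; exact Nat.lt_pow_succ_log_self (by norm_num) n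
  set M₀ : ℕ := 2 ^ i₀ with hM₀
  have hM3 : M₀ ^ 3 ≤ n := by
    rw [hM₀, ← pow_mul]
    exact (Nat.pow_le_pow_right (by norm_num) (by omega)).trans hrn
  have hM8 : n < 8 * M₀ ^ 3 := by
    have h1 : (8 : ℕ) * M₀ ^ 3 = 2 ^ (3 * i₀ + 3) := by
      rw [hM₀, ← pow_mul, pow_add]
      ring
    rw [h1]
    exact hrn'.trans_le (Nat.pow_le_pow_right (by norm_num) (by omega))
  have hMD : D₂ * w n ^ (4 * K + 1) < M₀ := by
    have h1 : (D₂ * w n ^ (4 * K + 1)) ^ 3 < M₀ ^ 3 := by omega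
    exact lt_of_pow_lt_pow_left₀ 3 (Nat.zero_le _) h1
  have hwpow : w n ≤ w n ^ (4 * K + 1) := Nat.le_self_pow (by omega) _
  have hMD1 : D₂ * w n < M₀ := lt_of_le_of_lt (Nat.mul_le_mul_left _ hwpow) hMD
  have hMw : 2 * w n ≤ M₀ := by nlinarith
  have hMx : 2 * x₀ + 2 ≤ M₀ := by nlinarith
  have hi1 : 1 ≤ i₀ := by
    rcases Nat.eq_zero_or_pos i₀ with h | h
    · rw [h] at hM₀
      simp at hM₀
      omega
    · exact h
  -- the size of the segment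
  set S : ℝ := ((seg A n).card : ℝ) with hSdef
  have hS0 : 0 ≤ S := by positivity
  have hG2 : G ^ 2 * S ^ 2 ≥ c ^ 2 * n := by
    have h1 : (c * Real.sqrt n) ^ 2 ≤ (G * S) ^ 2 := pow_le_pow_left₀ (by positivity) hS 2
    rw [mul_pow, mul_pow, Real.sq_sqrt (by positivity)] at h1
    exact h1
  have hM₀r : (0 : ℝ) < M₀ := by rw [hM₀]; positivity
  have hSM : 2 * 2 ^ i₀ ≤ (seg A n).card := by
    have h1 : Θ * G ^ 2 ≤ w n := by
      refine le_trans ?_ hΘn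
      have : 0 < Θ * G ^ 2 := by positivity
      nlinarith
    have h2 : c ^ 2 * Θ * n ≤ w n * S ^ 2 := by
      calc c ^ 2 * Θ * n = Θ * (c ^ 2 * n) := by ring
        _ ≤ Θ * (G ^ 2 * S ^ 2) := mul_le_mul_of_nonneg_left hG2 hΘ0.le
        _ = (Θ * G ^ 2) * S ^ 2 := by ring
        _ ≤ w n * S ^ 2 := mul_le_mul_of_nonneg_right h1 (by positivity)
    have h3 : ((M₀ : ℝ)) ^ 3 ≤ n := by exact_mod_cast hM3
    have h4 : 4 * (w n : ℝ) ≤ c ^ 2 * Θ * M₀ := by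
      have h5 : (D₂ : ℝ) * w n ≤ M₀ := by exact_mod_cast hMD1.le
      rw [div_le_iff₀ (by positivity)] at hD₂''
      have h6 : 4 * (w n : ℝ) ≤ (D₂ * (c ^ 2 * Θ)) * w n :=
        mul_le_mul_of_nonneg_right hD₂'' (by positivity)
      calc 4 * (w n : ℝ) ≤ (D₂ * (c ^ 2 * Θ)) * w n := h6
        _ = (c ^ 2 * Θ) * (D₂ * w n) := by ring
        _ ≤ c ^ 2 * Θ * M₀ := mul_le_mul_of_nonneg_left h5 (by positivity)
    have h5 : (w n : ℝ) * (2 * M₀) ^ 2 ≤ w n * S ^ 2 := by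
      calc (w n : ℝ) * (2 * M₀) ^ 2 = (4 * w n) * (M₀ : ℝ) ^ 2 := by ring
        _ ≤ (c ^ 2 * Θ * M₀) * (M₀ : ℝ) ^ 2 := mul_le_mul_of_nonneg_right h4 (by positivity)
        _ = c ^ 2 * Θ * (M₀ : ℝ) ^ 3 := by ring
        _ ≤ c ^ 2 * Θ * n := mul_le_mul_of_nonneg_left h3 (by positivity)
        _ ≤ _ := h2
    have h6 : (2 * (M₀ : ℝ)) ^ 2 ≤ S ^ 2 := le_of_mul_le_mul_left h5 (by linarith)
    have h7 : 2 * (M₀ : ℝ) ≤ S := (pow_le_pow_iff_left₀ (by positivity) hS0 (by norm_num)).1 h6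
    rw [hSdef] at h7
    exact_mod_cast h7
  have hSpos : 0 < S := by
    rw [hSdef]
    have : 0 < (seg A n).card := lt_of_lt_of_le (by positivity) hSM
    exact_mod_cast this
  -- the block
  have hbl := blocks A n i₀ hSM
  rw [← hr] at hbl
  obtain ⟨i, hir, hiD⟩ := select _ r ρ (S / 2) hρ0 hρ1 (by positivity) hbl
  set D : Finset ℕ := (seg A n).filter (fun a => 2 ^ i₀ ≤ a ∧ Nat.log 2 a = i) with hD
  have hDpos : (0 : ℝ) < (1 - ρ) * ρ ^ (r - i) * (S / 2) := by positivity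
  have hmemD : ∀ a ∈ D, a ∈ A ∧ a ≤ n ∧ 1 ≤ a ∧ 2 ^ i₀ ≤ a ∧ 2 ^ i ≤ a ∧ a < 2 ^ (i + 1) := by
    intro a ha
    rw [hD, mem_filter, mem_seg] at ha
    obtain ⟨⟨h1, h2, h3⟩, h4, h5⟩ := ha
    refine ⟨h3, h2, h1, h4, ?_, ?_⟩
    · rw [← h5]; exact Nat.pow_log_le_self 2 (by omega)
    · rw [← h5]; exact Nat.lt_pow_succ_log_self (by norm_num) a
  have hi₀i : i₀ ≤ i := by
    have h1 : D.Nonempty := by
      rw [← card_pos]
      have : (0 : ℝ) < D.card := lt_of_lt_of_le hDpos hiD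
      exact_mod_cast this
    obtain ⟨a, ha⟩ := h1
    obtain ⟨-, -, -, h4, -, h6⟩ := hmemD a ha
    have h7 : 2 ^ i₀ < 2 ^ (i + 1) := lt_of_le_of_lt h4 h6
    have := (Nat.pow_lt_pow_iff_right (by norm_num : 1 < 2)).1 h7
    omega
  obtain ⟨k, hk⟩ : ∃ k, i = k + 1 := ⟨i - 1, by omega⟩
  have hMk : M₀ ≤ 2 * 2 ^ k := by
    have h1 : M₀ ≤ 2 ^ i := Nat.pow_le_pow_right (by norm_num) hi₀i
    rw [hk, pow_succ] at h1
    omega
  have hwk : w n ≤ 2 ^ k := by omega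
  have hxk : x₀ ≤ 2 ^ k := by omega
  -- the pieces of the block
  have hpc : ∀ a ∈ D, 2 ^ k ≤ P (idx P a) ∧ P (idx P a) ≤ n ∧
      P (idx P a + 1) ≤ P (idx P a) + ℓ n := by
    intro a ha
    obtain ⟨-, h2, -, -, h5, -⟩ := hmemD a ha
    have h7 := idx_le h0 a
    have h8 := lt_idx hP a
    have h9 := hlen (idx P a)
    have h10 : ℓ (P (idx P a)) ≤ ℓ n := hℓm (h7.trans h2)
    have h11 := hℓw n
    rw [hk, pow_succ] at h5
    refine ⟨by omega, h7.trans h2, by omega⟩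
  rcases transversal hP h0 (hℓ1 n) D (fun a ha => (hmemD a ha).1)
    (fun a ha => (hpc a ha).2.2) (K := K) with hheavy | ⟨F, hFD, hFinj, hFc⟩
  · have : {ω | ¬ ∃ v, K ≤ rep (moved A P (fun s => ε s ω)) v} = ∅ := by
      ext ω
      simp only [Set.mem_ofPred_eq, Set.mem_empty_iff_false, iff_false, not_not]
      exact hheavy _
    rw [this, measureReal_empty]
    exact (Real.exp_pos _).le
  -- numerical estimates
  obtain ⟨U, hU⟩ : ∃ U, U = w (2 ^ k) / 2 := ⟨_, rfl⟩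
  have hwkn : w (2 ^ k) ≤ w n := by
    refine hwm (le_trans ?_ hrn)
    exact Nat.pow_le_pow_right (by norm_num) (by omega)
  have hU1 : (w (2 ^ k) : ℝ) ≤ 2 * (U + 1) := by
    have : w (2 ^ k) ≤ 2 * (U + 1) := by omega
    exact_mod_cast this
  have hU2 : ((U : ℝ) + 1) ≤ 2 * w n := by
    have : U + 1 ≤ 2 * w n := by omega
    exact_mod_cast this
  set f := F.card with hf
  have hDS : (1 - ρ) ^ 2 * (ρ ^ 2) ^ (r - i) * S ^ 2 ≤ 4 * (D.card : ℝ) ^ 2 := by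
    have h1 : ((1 - ρ) * ρ ^ (r - i) * (S / 2)) ^ 2 ≤ (D.card : ℝ) ^ 2 :=
      pow_le_pow_left₀ hDpos.le hiD 2
    have h2 : ((1 - ρ) * ρ ^ (r - i) * (S / 2)) ^ 2 =
        (1 - ρ) ^ 2 * (ρ ^ 2) ^ (r - i) * S ^ 2 / 4 := by
      rw [← pow_mul, mul_comm 2 (r - i), pow_mul]
      ring
    rw [h2] at h1
    linarith
  have hwi : (w n : ℝ) ≤ C ^ (r - i) * 4 * w (2 ^ k) := by
    have h1 := doubling hC0.le hreg k hxk (r - i + 2)
    have h2 : k + (r - i + 2) = r + 1 := by omega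
    rw [h2] at h1
    have h3 : (w n : ℝ) ≤ w (2 ^ (r + 1)) := by exact_mod_cast hwm hrn'.le
    have h4 : C ^ (r - i + 2) ≤ C ^ (r - i) * 4 := by
      rw [pow_add]
      refine mul_le_mul_of_nonneg_left ?_ (by positivity)
      nlinarith
    calc (w n : ℝ) ≤ w (2 ^ (r + 1)) := h3
      _ ≤ C ^ (r - i + 2) * w (2 ^ k) := h1
      _ ≤ C ^ (r - i) * 4 * w (2 ^ k) := mul_le_mul_of_nonneg_right h4 (by positivity)
  have hmain : 1280 * (K : ℝ) ^ 2 * (2 ^ i : ℕ) ≤ (f : ℝ) ^ 2 * (U + 1) := by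
    -- `S ^ 2 w ≥ c ^ 2 n ℓ Θ`
    have h1 : c ^ 2 * n * ℓ n * Θ ≤ S ^ 2 * w n := by
      calc c ^ 2 * n * ℓ n * Θ = (c ^ 2 * n) * (ℓ n * Θ) := by ring
        _ ≤ (G ^ 2 * S ^ 2) * (ℓ n * Θ) := mul_le_mul_of_nonneg_right hG2 (by positivity)
        _ = S ^ 2 * (Θ * (G ^ 2 * ℓ n)) := by ring
        _ ≤ S ^ 2 * w n := mul_le_mul_of_nonneg_left hΘn (by positivity)
    have h2 : (2 : ℝ) ^ r ≤ n := by exact_mod_cast hrn
    have h3 : (2 : ℝ) ^ r = 2 ^ i * 2 ^ (r - i) := by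
      rw [← pow_add]
      congr 1
      omega
    have h4 : (ρ ^ 2) ^ (r - i) * C ^ (r - i) * 2 ^ (r - i) = (C ^ (r - i)) ^ 2 := by
      rw [hρ, ← mul_pow, ← mul_pow, ← pow_mul, mul_comm (r - i) 2, pow_mul]
      congr 1
      ring
    have hCp : 0 < C ^ (r - i) := by positivity
    -- multiply everything
    have h5 : (1 - ρ) ^ 2 * (ρ ^ 2) ^ (r - i) * S ^ 2 * w n ≤
        4 * (D.card : ℝ) ^ 2 * (C ^ (r - i) * 4 * w (2 ^ k)) := by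
      refine mul_le_mul hDS hwi (by positivity) (by positivity)
    have h6 : (1 - ρ) ^ 2 * (ρ ^ 2) ^ (r - i) * (c ^ 2 * (2 ^ i * 2 ^ (r - i)) * ℓ n * Θ) ≤
        (1 - ρ) ^ 2 * (ρ ^ 2) ^ (r - i) * S ^ 2 * w n := by
      rw [mul_assoc _ (S ^ 2)]
      refine mul_le_mul_of_nonneg_left (le_trans ?_ h1) (by positivity)
      rw [← h3]
      have : 0 ≤ c ^ 2 * ℓ n * Θ := by positivity
      nlinarith
    have h7 : (D.card : ℝ) ^ 2 ≤ 2 * ℓ n * K * (f : ℝ) ^ 2 := by exact_mod_cast hFc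
    have h8 : (1 - ρ) ^ 2 * c ^ 2 * Θ * 2 ^ i * ℓ n * C ^ (r - i) * C ^ (r - i) ≤
        (64 * K * ((f : ℝ) ^ 2 * (U + 1))) * ℓ n * C ^ (r - i) * C ^ (r - i) := by
      calc (1 - ρ) ^ 2 * c ^ 2 * Θ * 2 ^ i * ℓ n * C ^ (r - i) * C ^ (r - i)
          = (1 - ρ) ^ 2 * c ^ 2 * Θ * 2 ^ i * ℓ n * (C ^ (r - i)) ^ 2 := by ring
        _ = C ^ (r - i) * ((1 - ρ) ^ 2 * (ρ ^ 2) ^ (r - i) *
              (c ^ 2 * (2 ^ i * 2 ^ (r - i)) * ℓ n * Θ)) := by rw [← h4]; ring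
        _ ≤ C ^ (r - i) * (4 * (D.card : ℝ) ^ 2 * (C ^ (r - i) * 4 * w (2 ^ k))) :=
            mul_le_mul_of_nonneg_left (h6.trans h5) hCp.le
        _ ≤ C ^ (r - i) * (4 * (2 * ℓ n * K * (f : ℝ) ^ 2) *
              (C ^ (r - i) * 4 * (2 * (U + 1)))) := by
            refine mul_le_mul_of_nonneg_left ?_ hCp.le
            refine mul_le_mul (mul_le_mul_of_nonneg_left h7 (by norm_num)) ?_ (by positivity)
              (by positivity)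
            exact mul_le_mul_of_nonneg_left hU1 (by positivity)
        _ = _ := by ring
    have h9 : (1 - ρ) ^ 2 * c ^ 2 * Θ * 2 ^ i ≤ 64 * K * ((f : ℝ) ^ 2 * (U + 1)) := by
      have hℓ0 : (0 : ℝ) < ℓ n := by linarith
      exact le_of_mul_le_mul_right (le_of_mul_le_mul_right (le_of_mul_le_mul_right h8 hCp) hCp) hℓ0
    rw [div_le_iff₀ (by positivity)] at hΘ
    have h10 : 81920 * (K : ℝ) ^ 3 * 2 ^ i ≤ 64 * K * ((f : ℝ) ^ 2 * (U + 1)) := by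
      refine le_trans ?_ h9
      calc 81920 * (K : ℝ) ^ 3 * 2 ^ i ≤ (Θ * ((1 - ρ) ^ 2 * c ^ 2)) * 2 ^ i :=
            mul_le_mul_of_nonneg_right hΘ (by positivity)
        _ = _ := by ring
    have h11 : 64 * (K : ℝ) * (1280 * (K : ℝ) ^ 2 * 2 ^ i) ≤ 64 * K * ((f : ℝ) ^ 2 * (U + 1)) := by
      refine le_trans (le_of_eq ?_) h10
      ring
    have h12 := le_of_mul_le_mul_left h11 (by positivity)
    push_cast
    exact h12
  -- `f` is large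
  have hfl : (D₁ : ℝ) * w n ^ (2 * K) ≤ f := by
    have h1 : (M₀ : ℝ) ≤ (f : ℝ) ^ 2 * (2 * w n) := by
      have h2 : (M₀ : ℝ) ≤ ((2 ^ i : ℕ) : ℝ) := by
        exact_mod_cast Nat.pow_le_pow_right (by norm_num) hi₀i
      have h3 : (1 : ℝ) ≤ 1280 * (K : ℝ) ^ 2 := by nlinarith
      have h4 : (0 : ℝ) ≤ ((2 ^ i : ℕ) : ℝ) := by positivity
      calc (M₀ : ℝ) ≤ ((2 ^ i : ℕ) : ℝ) := h2
        _ ≤ 1280 * (K : ℝ) ^ 2 * ((2 ^ i : ℕ) : ℝ) := by nlinarith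
        _ ≤ (f : ℝ) ^ 2 * (U + 1) := hmain
        _ ≤ (f : ℝ) ^ 2 * (2 * w n) := mul_le_mul_of_nonneg_left hU2 (by positivity)
    have h2 : (2 * (D₁ : ℝ) ^ 2) * (w n : ℝ) ^ (4 * K + 1) ≤ M₀ := by
      have h3 : 2 * D₁ ^ 2 * w n ^ (4 * K + 1) ≤ M₀ :=
        (Nat.mul_le_mul_right _ hD₂).trans hMD.le
      exact_mod_cast h3
    have h3 : ((D₁ : ℝ) * w n ^ (2 * K)) ^ 2 * (2 * w n) ≤ (f : ℝ) ^ 2 * (2 * w n) := by
      refine le_trans (le_of_eq ?_) (h2.trans h1)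
      rw [mul_pow, ← pow_mul, pow_succ]
      ring
    have h4 := le_of_mul_le_mul_right h3 (by positivity)
    exact (pow_le_pow_iff_left₀ (by positivity) (by positivity) (by norm_num)).1 h4
  have hwK : (1 : ℝ) ≤ (w n : ℝ) ^ (2 * K) := one_le_pow₀ hy1
  have hfD : D₁ ≤ f := by
    have : (D₁ : ℝ) ≤ f := by
      refine le_trans ?_ hfl
      have : (0 : ℝ) ≤ D₁ := by positivity
      nlinarith
    exact_mod_cast this
  have hf16 : 16 * K ≤ f := hD₁'.trans hfD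
  obtain ⟨m, hm'⟩ : ∃ m, m = f / (8 * K) := ⟨_, rfl⟩
  have hmf : 8 * K * m ≤ f := by rw [hm']; exact Nat.mul_div_le f (8 * K)
  have hmf' : f ≤ 16 * K * m := by
    have h1 : f < 8 * K * (m + 1) := by
      rw [hm']
      have := Nat.lt_mul_div_succ f (show 0 < 8 * K by omega)
      exact this
    have h2 : 8 * K * (m + 1) = 8 * K * m + 8 * K := by ring
    have h3 : 16 * K * m = 8 * K * m + 8 * K * m := by ring
    omega
  have htf : f / 2 + 2 * K * m ≤ F.card := by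
    have h3 : 8 * K * m = 4 * (2 * K * m) := by ring
    omega
  have hXF : ∀ a ∈ F, a ≤ 2 * 2 ^ i := by
    intro a ha
    have := (hmemD a (hFD ha)).2.2.2.2.2
    rw [pow_succ] at this
    omega
  have hUi : U + 1 ≤ 2 ^ i := by
    have h1 : (2 : ℕ) ^ i = 2 * 2 ^ k := by rw [hk, pow_succ]; ring
    have h2 : 1 ≤ 2 ^ k := Nat.one_le_two_pow
    omega
  have ht := num_t (K := K) (by omega) hUi hmain
  set q : ℝ := β / (w n + 1) with hq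
  have hq0 : 0 < q := by positivity
  have hq1 : q ≤ 1 := by
    rw [hq, div_le_one (by positivity)]
    linarith
  have hqF : ∀ a ∈ F, ∀ j ≤ 2 * U, q ≤ μ.real {ω | ε (idx P a) ω = j} := by
    intro a ha j hj
    obtain ⟨h1, h2, -⟩ := hpc a (hFD ha)
    have h3 : w (2 ^ k) ≤ w (P (idx P a)) := hwm h1
    refine le_trans ?_ (hε (idx P a) j (by omega))
    rw [hq]
    refine div_le_div_of_nonneg_left hβ0.le (by positivity) ?_
    have : (w (P (idx P a)) : ℝ) ≤ w n := by exact_mod_cast hwm h2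
    linarith
  have hfin := prob_fail hP h0 hi hm (fun a ha => (hmemD a (hFD ha)).1) hFinj (K := K)
    (t := f / 2) (m := m) hXF ht htf hq0.le hq1 hqF
  refine hfin.trans ?_
  have hqK : q ^ (2 * K) ≤ 1 := pow_le_one₀ hq0.le hq1
  have h1 : (1 - q ^ (2 * K)) ^ m ≤ Real.exp (-(m * q ^ (2 * K))) := by
    have h2 : 1 - q ^ (2 * K) ≤ Real.exp (-(q ^ (2 * K))) := by
      have := Real.add_one_le_exp (-(q ^ (2 * K)))
      linarith
    calc (1 - q ^ (2 * K)) ^ m ≤ Real.exp (-(q ^ (2 * K))) ^ m :=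
          pow_le_pow_left₀ (by linarith) h2 m
      _ = Real.exp (-(m * q ^ (2 * K))) := by rw [← Real.exp_nat_mul]; ring_nf
  refine h1.trans (Real.exp_le_exp.2 (neg_le_neg ?_))
  -- `L ≤ m q ^ (2 K)`
  have h2 : β ^ (2 * K) / (4 ^ K * (w n : ℝ) ^ (2 * K)) ≤ q ^ (2 * K) := by
    rw [hq, div_pow]
    refine div_le_div_of_nonneg_left (by positivity) (by positivity) ?_
    have h3 : (4 : ℝ) ^ K * (w n : ℝ) ^ (2 * K) = (2 * w n) ^ (2 * K) := by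
      rw [mul_pow, pow_mul 2 2 K]
      norm_num
    rw [h3]
    exact pow_le_pow_left₀ (by positivity) (by linarith) _
  have h3 : (f : ℝ) ≤ 16 * K * m := by exact_mod_cast hmf'
  rw [div_le_iff₀ (by positivity)] at hD₁
  have hK0 : (0 : ℝ) < 16 * K := by positivity
  have h4 : 16 * K * (4 ^ K * (w n : ℝ) ^ (2 * K)) * L ≤
      16 * K * (4 ^ K * (w n : ℝ) ^ (2 * K)) * (m * q ^ (2 * K)) := by
    rw [div_le_iff₀ (by positivity)] at h2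
    calc 16 * K * (4 ^ K * (w n : ℝ) ^ (2 * K)) * L
        = (16 * K * 4 ^ K * L) * (w n : ℝ) ^ (2 * K) := by ring
      _ ≤ (D₁ * β ^ (2 * K)) * (w n : ℝ) ^ (2 * K) :=
          mul_le_mul_of_nonneg_right hD₁ (by positivity)
      _ = (D₁ * (w n : ℝ) ^ (2 * K)) * β ^ (2 * K) := by ring
      _ ≤ f * β ^ (2 * K) := mul_le_mul_of_nonneg_right hfl (by positivity)
      _ ≤ (16 * K * m) * β ^ (2 * K) := mul_le_mul_of_nonneg_right h3 (by positivity)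
      _ ≤ (16 * K * m) * (q ^ (2 * K) * (4 ^ K * (w n : ℝ) ^ (2 * K))) :=
          mul_le_mul_of_nonneg_left h2 (by positivity)
      _ = _ := by ring
  exact le_of_mul_le_mul_left h4 (by positivity)

end Pool.Agent.Q167.DT
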