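import Pool.Agent.Q167.DT.Prob

/-!
# The displacement threshold: unbounded representation functions
-/

set_option autoImplicit false

open Finset MeasureTheory ProbabilityTheory

namespace Pool.Agent.Q167.DT

/-- a piece with many elements -/
theorem heavy {A : Set ℕ} {P : ℕ → ℕ} {s L K : ℕ} (T : Finset ℕ) (hTA : ∀ a ∈ T, a ∈ A)
    (hT : ∀ a ∈ T, P s ≤ a ∧ a < P (s + 1)) (hL1 : 1 ≤ L) (hL : P (s + 1) ≤ P s + L)
    (hc : 2 * L * K ≤ T.card ^ 2) (x : ℕ → ℕ) : ∃ n, K ≤ rep (moved A P x) n := by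
  classical
  have hf : ∀ e ∈ T ×ˢ T, e.1 + e.2 ∈ Ico (2 * P s) (2 * P s + 2 * L) := by
    intro e he
    rw [mem_product] at he
    have h1 := hT _ he.1
    have h2 := hT _ he.2
    rw [mem_Ico]
    omega
  obtain ⟨v, -, hv⟩ := exists_le_card_fiber_of_mul_le_card_of_maps_to (n := K) hf
    ⟨2 * P s, by rw [mem_Ico]; omega⟩ (by
      rw [Nat.card_Ico, card_product]
      have : 2 * P s + 2 * L - 2 * P s = 2 * L := by omega
      rw [this, ← sq]
      exact hc)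
  refine ⟨v + 2 * x s, ?_⟩
  have h1 : (((T ×ˢ T).filter (fun e => e.1 + e.2 = v)).image (fun e => e.1 + x s)).card =
      ((T ×ˢ T).filter (fun e => e.1 + e.2 = v)).card := by
    refine card_image_of_injOn ?_
    intro e he f hf' hef
    rw [mem_coe, mem_filter] at he hf'
    have hef' : e.1 + x s = f.1 + x s := hef
    refine Prod.ext (by omega) (by omega)
  rw [← h1] at hv
  refine hv.trans (le_rep _ ?_)
  intro a ha
  obtain ⟨e, he, rfl⟩ := mem_image.1 ha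
  rw [mem_filter, mem_product] at he
  obtain ⟨⟨h2, h3⟩, h4⟩ := he
  refine ⟨⟨s, e.1, hTA _ h2, (hT _ h2).1, (hT _ h2).2, rfl⟩, by omega, ?_⟩
  have : v + 2 * x s - (e.1 + x s) = e.2 + x s := by omega
  rw [this]
  exact ⟨s, e.2, hTA _ h3, (hT _ h3).1, (hT _ h3).2, rfl⟩

/-- either some piece is heavy, or there is a large transversal -/
theorem transversal {A : Set ℕ} {P : ℕ → ℕ} (hP : StrictMono P) (h0 : P 0 = 0) {L K : ℕ}
    (hL1 : 1 ≤ L) (D : Finset ℕ) (hDA : ∀ a ∈ D, a ∈ A)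
    (hL : ∀ a ∈ D, P (idx P a + 1) ≤ P (idx P a) + L) :
    (∀ x, ∃ n, K ≤ rep (moved A P x) n) ∨
    ∃ F : Finset ℕ, F ⊆ D ∧ Set.InjOn (idx P) F ∧ D.card ^ 2 ≤ 2 * L * K * F.card ^ 2 := by
  classical
  by_cases h : ∃ s ∈ D.image (idx P), 2 * L * K ≤ (D.filter (fun a => idx P a = s)).card ^ 2
  · left
    intro x
    obtain ⟨s, hs, hc⟩ := h
    obtain ⟨a₀, ha₀, rfl⟩ := mem_image.1 hs
    refine heavy (D.filter (fun a => idx P a = idx P a₀)) (fun a ha => hDA a (mem_filter.1 ha).1)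
      ?_ hL1 (hL a₀ ha₀) hc x
    intro a ha
    rw [← (mem_filter.1 ha).2]
    exact ⟨idx_le h0 a, lt_idx hP a⟩
  · right
    push Not at h
    have hg : ∀ s : ℕ, ∃ a, s ∈ D.image (idx P) → a ∈ D ∧ idx P a = s := by
      intro s
      by_cases hs : s ∈ D.image (idx P)
      · obtain ⟨a, ha, h1⟩ := mem_image.1 hs
        exact ⟨a, fun _ => ⟨ha, h1⟩⟩
      · exact ⟨0, fun h1 => absurd h1 hs⟩
    choose g hg using hg
    have hginj : Set.InjOn g (D.image (idx P)) := by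
      intro s hs s' hs' hss
      rw [← (hg s hs).2, ← (hg s' hs').2, hss]
    refine ⟨(D.image (idx P)).image g, ?_, ?_, ?_⟩
    · intro a ha
      obtain ⟨s, hs, rfl⟩ := mem_image.1 ha
      exact (hg s hs).1
    · intro a ha b hb hab
      rw [mem_coe] at ha hb
      obtain ⟨s, hs, rfl⟩ := mem_image.1 ha
      obtain ⟨s', hs', rfl⟩ := mem_image.1 hb
      rw [(hg s hs).2, (hg s' hs').2] at hab
      rw [hab]
    · rw [card_image_of_injOn hginj]
      have h1 := card_le_mul_card_image (f := idx P) D (Nat.sqrt (2 * L * K)) (by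
        intro s hs
        rw [Nat.le_sqrt']
        exact (h s hs).le)
      have h2 : Nat.sqrt (2 * L * K) ^ 2 ≤ 2 * L * K := Nat.sqrt_le' _
      calc D.card ^ 2 ≤ (Nat.sqrt (2 * L * K) * (D.image (idx P)).card) ^ 2 :=
            Nat.pow_le_pow_left h1 2
        _ = Nat.sqrt (2 * L * K) ^ 2 * (D.image (idx P)).card ^ 2 := by ring
        _ ≤ 2 * L * K * (D.image (idx P)).card ^ 2 := Nat.mul_le_mul_right _ h2

/-- selection of a dyadic block -/
theorem select (f : ℕ → ℝ) (r : ℕ) (ρ T : ℝ) (hρ0 : 0 < ρ) (hρ1 : ρ < 1) (hT : 0 < T)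
    (h : T ≤ ∑ i ∈ range (r + 1), f i) : ∃ i, i ≤ r ∧ (1 - ρ) * ρ ^ (r - i) * T ≤ f i := by
  by_contra hcon
  push Not at hcon
  have h1 : ∑ i ∈ range (r + 1), f i < ∑ i ∈ range (r + 1), (1 - ρ) * ρ ^ (r - i) * T := by
    refine sum_lt_sum_of_nonempty ⟨0, by simp⟩ ?_
    intro i hi
    exact hcon i (by rw [mem_range] at hi; omega)
  have h2 : ∑ i ∈ range (r + 1), (1 - ρ) * ρ ^ (r - i) * T =
      (1 - ρ) * T * ∑ i ∈ range (r + 1), ρ ^ i := by
    rw [← sum_range_reflect (fun i => ρ ^ i), mul_sum]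
    refine sum_congr rfl fun i hi => ?_
    have : r + 1 - 1 - i = r - i := by omega
    rw [this]
    ring
  have h3 : (1 - ρ) * ∑ i ∈ range (r + 1), ρ ^ i = 1 - ρ ^ (r + 1) := by
    rw [geom_sum_eq hρ1.ne]
    have : ρ - 1 ≠ 0 := by linarith
    field_simp
    ring
  have h4 : (1 - ρ) * T * ∑ i ∈ range (r + 1), ρ ^ i ≤ T := by
    have : (1 - ρ) * T * ∑ i ∈ range (r + 1), ρ ^ i = (1 - ρ ^ (r + 1)) * T := by
      rw [← h3]; ring
    rw [this]
    have := pow_pos hρ0 (r + 1)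
    nlinarith
  linarith [h2 ▸ h1]

/-- doubling -/
theorem doubling {w : ℕ → ℕ} {C : ℝ} {x₀ : ℕ} (hC0 : 0 ≤ C)
    (hreg : ∀ x, x₀ ≤ x → (w (2 * x) : ℝ) ≤ C * w x) (k : ℕ) (hk : x₀ ≤ 2 ^ k) :
    ∀ j : ℕ, (w (2 ^ (k + j)) : ℝ) ≤ C ^ j * w (2 ^ k) := by
  intro j
  induction j with
  | zero => simp
  | succ j ih =>
    have h1 : x₀ ≤ 2 ^ (k + j) := hk.trans (Nat.pow_le_pow_right (by norm_num) (by omega))
    have h2 := hreg _ h1
    have h3 : 2 * 2 ^ (k + j) = 2 ^ (k + (j + 1)) := by rw [← add_assoc, pow_succ]; ring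
    rw [h3] at h2
    calc (w (2 ^ (k + (j + 1))) : ℝ) ≤ C * w (2 ^ (k + j)) := h2
      _ ≤ C * (C ^ j * w (2 ^ k)) := mul_le_mul_of_nonneg_left ih hC0
      _ = C ^ (j + 1) * w (2 ^ k) := by rw [pow_succ]; ring

/-- the elements of `A` in `[1, n]` -/
noncomputable def seg (A : Set ℕ) (n : ℕ) : Finset ℕ :=
  haveI := Classical.decPred (· ∈ A)
  (Icc 1 n).filter (· ∈ A)

theorem mem_seg {A : Set ℕ} {n a : ℕ} : a ∈ seg A n ↔ 1 ≤ a ∧ a ≤ n ∧ a ∈ A := by
  classical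
  unfold seg
  rw [mem_filter, mem_Icc, and_assoc]

theorem card_seg (A : Set ℕ) (n : ℕ) : (A ∩ Set.Icc 1 n).ncard = (seg A n).card := by
  rw [← Set.ncard_coe_finset]
  congr 1
  ext a
  rw [mem_coe, mem_seg, Set.mem_inter_iff, Set.mem_Icc]
  tauto

/-- the dyadic blocks contain at least half of the elements -/
theorem blocks (A : Set ℕ) (n i₀ : ℕ) (hS : 2 * 2 ^ i₀ ≤ (seg A n).card) :
    ((seg A n).card : ℝ) / 2 ≤ ∑ i ∈ range (Nat.log 2 n + 1),
      (((seg A n).filter (fun a => 2 ^ i₀ ≤ a ∧ Nat.log 2 a = i)).card : ℝ) := by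
  classical
  have h1 : ((seg A n).filter (fun a => 2 ^ i₀ ≤ a)).card =
      ∑ i ∈ range (Nat.log 2 n + 1),
        ((seg A n).filter (fun a => 2 ^ i₀ ≤ a ∧ Nat.log 2 a = i)).card := by
    rw [card_eq_sum_card_fiberwise (f := fun a => Nat.log 2 a)
      (s := (seg A n).filter (fun a => 2 ^ i₀ ≤ a)) (t := range (Nat.log 2 n + 1))]
    · refine sum_congr rfl fun i _ => ?_
      rw [filter_filter]
    · intro a ha
      have ha' : a ∈ (seg A n).filter (fun a => 2 ^ i₀ ≤ a) := ha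
      rw [mem_filter, mem_seg] at ha'
      show Nat.log 2 a ∈ (range (Nat.log 2 n + 1) : Set ℕ)
      rw [mem_coe, mem_range]
      have : Nat.log 2 a ≤ Nat.log 2 n := Nat.log_mono_right ha'.1.2.1
      omega
  have h2 : ((seg A n).filter (fun a => ¬ 2 ^ i₀ ≤ a)).card ≤ 2 ^ i₀ := by
    have h3 : (seg A n).filter (fun a => ¬ 2 ^ i₀ ≤ a) ⊆ range (2 ^ i₀) := by
      intro a ha
      rw [mem_filter] at ha
      rw [mem_range]
      omega
    have := card_le_card h3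
    rwa [card_range] at this
  have h3 := card_filter_add_card_filter_not (s := seg A n) (fun a => 2 ^ i₀ ≤ a)
  have h4 : (seg A n).card ≤ 2 * ((seg A n).filter (fun a => 2 ^ i₀ ≤ a)).card := by omega
  rw [h1] at h4
  have h5 : ((seg A n).card : ℝ) ≤ 2 * ∑ i ∈ range (Nat.log 2 n + 1),
      (((seg A n).filter (fun a => 2 ^ i₀ ≤ a ∧ Nat.log 2 a = i)).card : ℝ) := by
    exact_mod_cast h4
  linarith

end Pool.Agent.Q167.DT
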