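import Pool.Agent.Q167.DT.Limit
import Pool.Agent.Q167.DT.Sharp

/-!
# The product of uniform measures
-/

set_option autoImplicit false

namespace Pool.Agent.Q167.DT

open MeasureTheory ProbabilityTheory Finset Filter Topology

/-- the product of the uniform probability measures on `{0, …, w n}` -/
noncomputable def unif (w : ℕ → ℕ) : Measure (∀ n, Fin (w n + 1)) :=
  Measure.infinitePi fun n => (PMF.uniformOfFintype (Fin (w n + 1))).toMeasure

instance (w : ℕ → ℕ) : IsProbabilityMeasure (unif w) := by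
  unfold unif
  infer_instance

theorem unif_indep (w : ℕ → ℕ) :
    iIndepFun (fun n (x : ∀ n, Fin (w n + 1)) => (x n : ℕ)) (unif w) :=
  iIndepFun_infinitePi (P := fun n => (PMF.uniformOfFintype (Fin (w n + 1))).toMeasure)
      (X := fun n (x : Fin (w n + 1)) => (x : ℕ)) (fun n => measurable_from_top)

theorem unif_meas (w : ℕ → ℕ) (n : ℕ) :
    Measurable (fun (x : ∀ n, Fin (w n + 1)) => (x n : ℕ)) :=
  (measurable_from_top (f := fun x : Fin (w n + 1) => (x : ℕ))).comp (measurable_pi_apply n)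

theorem unif_le (w : ℕ → ℕ) (n j : ℕ) (hj : j ≤ w n) :
    1 / ((w n : ℝ) + 1) ≤ (unif w).real {x | (x n : ℕ) = j} := by
  have h1 : (unif w).map (fun x => x n) = (PMF.uniformOfFintype (Fin (w n + 1))).toMeasure :=
    (measurePreserving_eval_infinitePi _ n).map_eq
  have h2 : (unif w) {x : ∀ n, Fin (w n + 1) | (x n : ℕ) = j} =
      (PMF.uniformOfFintype (Fin (w n + 1))).toMeasure {y : Fin (w n + 1) | (y : ℕ) = j} := by
    rw [← h1, Measure.map_apply (measurable_pi_apply n) MeasurableSet.of_discrete]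
    rfl
  have h3 : {y : Fin (w n + 1) | (y : ℕ) = j} = {(⟨j, by omega⟩ : Fin (w n + 1))} := by
    ext y
    simp [Fin.ext_iff]
  rw [Measure.real, h2, h3, PMF.toMeasure_apply_singleton _ _ (measurableSet_singleton _),
    PMF.uniformOfFintype_apply, Fintype.card_fin, ENNReal.toReal_inv, ENNReal.toReal_natCast]
  push_cast
  rw [one_div]

/-- thresholds tending to infinity -/
theorem exists_threshold_iff {ℓ w : ℕ → ℕ} (hℓ1 : ∀ n, 1 ≤ ℓ n) (hℓw : ∀ n, ℓ n ≤ w n) :
    (∃ g : ℕ → ℝ, (∀ n, 0 < g n) ∧ Tendsto g atTop atTop ∧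
      Tendsto (fun n => g n ^ 2 * ℓ n / w n) atTop (𝓝 0)) ↔
    Tendsto (fun n => (w n : ℝ) / ℓ n) atTop atTop := by
  have hℓ0 : ∀ n, (0 : ℝ) < ℓ n := fun n => by exact_mod_cast hℓ1 n
  have hw0 : ∀ n, (0 : ℝ) < w n := fun n => by exact_mod_cast (hℓ1 n).trans (hℓw n)
  constructor
  · rintro ⟨g, hg, hgt, hlim⟩
    refine tendsto_atTop_mono' atTop ?_ hgt
    filter_upwards [hlim.eventually (gt_mem_nhds (show (0 : ℝ) < 1 by norm_num)),
      hgt.eventually_ge_atTop 1] with n h1 h2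
    rw [div_lt_one (hw0 n)] at h1
    rw [le_div_iff₀ (hℓ0 n)]
    have := hℓ0 n
    nlinarith
  · intro h
    refine ⟨fun n => Real.sqrt (Real.sqrt ((w n : ℝ) / ℓ n)), ?_, ?_, ?_⟩
    · intro n
      have := hℓ0 n
      have := hw0 n
      exact Real.sqrt_pos.2 (Real.sqrt_pos.2 (by positivity))
    · exact Real.tendsto_sqrt_atTop.comp (Real.tendsto_sqrt_atTop.comp h)
    · have h1 : Tendsto (fun n => (Real.sqrt ((w n : ℝ) / ℓ n))⁻¹) atTop (𝓝 0) :=
        tendsto_inv_atTop_zero.comp (Real.tendsto_sqrt_atTop.comp h)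
      refine h1.congr fun n => ?_
      have h2 := hℓ0 n
      have h3 := hw0 n
      have h4 : 0 < (w n : ℝ) / ℓ n := by positivity
      rw [Real.sq_sqrt (Real.sqrt_nonneg _), eq_comm, mul_div_assoc]
      have h5 : (ℓ n : ℝ) / w n = ((w n : ℝ) / ℓ n)⁻¹ := by rw [inv_div]
      rw [h5]
      have h6 : 0 < Real.sqrt ((w n : ℝ) / ℓ n) := Real.sqrt_pos.2 h4
      rw [← div_eq_mul_inv, div_eq_iff h4.ne', inv_mul_eq_div, eq_div_iff h6.ne']
      exact Real.mul_self_sqrt h4.le

end Pool.Agent.Q167.DT
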